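import Mathlib
import Pool.Agent.R582.Rand.Reg

set_option autoImplicit false

/-!
# Countable formulas as measurable events
-/

namespace Pool.Agent.R582.GG

open Set MeasureTheory Filter Topology
open scoped ENNReal
open Pool.Agent.Helper292.SP (fnot fand fall fimp fiff fex fground meets)
open Pool.Agent.R582.Rand

section

variable {Ω : Type} [MeasurableSpace Ω] {μ : Measure Ω}

/-- a condition forces `φ` iff almost all of its elements satisfy `Q` -/
def Rep (φ : Set (MAlg μ)) (Q : Ω → Prop) : Prop :=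
  MeasurableSet {x | Q x} ∧ ∀ p : MAlg μ, p ∈ φ ↔ ∀ᵐ x ∂μ, x ∈ p.s → Q x

theorem null_iff {A B : Set Ω} : μ (A \ B) = 0 ↔ ∀ᵐ x ∂μ, x ∈ A → x ∈ B := by
  rw [ae_iff]
  have : {x | ¬ (x ∈ A → x ∈ B)} = A \ B := by
    ext x
    simp [Set.mem_sdiff]
  rw [this]

theorem le_iff_ae {p q : MAlg μ} : p ≤ q ↔ ∀ᵐ x ∂μ, x ∈ p.s → x ∈ q.s := le_iff.trans null_iff

theorem rep_meets [IsFiniteMeasure μ] (N : Set (MAlg μ)) : Rep (meets N) (fun x => x ∈ val N) :=
  ⟨val_meas N, fun _ => mem_meets.trans null_iff⟩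

theorem rep_cst {E : Set Ω} (hE : MeasurableSet E) :
    Rep (meets (cst E : Set (MAlg μ))) (fun x => x ∈ E) :=
  ⟨hE, fun _ => (mem_meets_cst hE).trans null_iff⟩

theorem rep_ground (c : Prop) : Rep (fground c : Set (MAlg μ)) (fun _ => c) := by
  refine ⟨MeasurableSet.const c, fun p => ⟨fun h => ae_of_all _ fun _ _ => h, fun h => ?_⟩⟩
  by_contra hc
  apply p.pos
  have h1 : ∀ᵐ x ∂μ, x ∉ p.s := h.mono fun x hx hxp => hc (hx hxp)
  rw [ae_iff] at h1
  simpa using h1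

theorem rep_not {φ : Set (MAlg μ)} {Q : Ω → Prop} (h : Rep φ Q) :
    Rep (fnot φ) (fun x => ¬ Q x) := by
  refine ⟨h.1.compl, fun p => ⟨fun hp => ?_, fun hp q hq hq' => ?_⟩⟩
  · by_contra hcon
    have h1 : μ (p.s ∩ {x | Q x}) ≠ 0 := by
      intro h0
      apply hcon
      rw [ae_iff]
      refine measure_mono_null (fun x hx => ?_) h0
      simp only [mem_ofPred_eq, Classical.not_imp, not_not] at hx
      exact hx
    refine hp (p.inter _ h.1 h1) (p.inter_le _ _ _) ((h.2 _).2 (ae_of_all _ fun x hx => ?_))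
    exact hx.2
  · apply q.pos
    have h1 := (h.2 q).1 hq'
    have h2 := le_iff_ae.1 hq
    have h3 : ∀ᵐ x ∂μ, x ∉ q.s := by
      filter_upwards [h1, h2, hp] with x a b c hx
      exact c (b hx) (a hx)
    rw [ae_iff] at h3
    simpa using h3

theorem rep_and {φ ψ : Set (MAlg μ)} {Q R : Ω → Prop} (h : Rep φ Q) (h' : Rep ψ R) :
    Rep (fand φ ψ) (fun x => Q x ∧ R x) := by
  refine ⟨h.1.inter h'.1, fun p => ?_⟩
  change (p ∈ φ ∧ p ∈ ψ) ↔ _
  rw [h.2, h'.2, ← eventually_and]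
  exact eventually_congr (ae_of_all _ fun x =>
    ⟨fun hx hp => ⟨hx.1 hp, hx.2 hp⟩, fun hx => ⟨fun hp => (hx hp).1, fun hp => (hx hp).2⟩⟩)

theorem rep_all {ι : Sort*} [Countable ι] {φ : ι → Set (MAlg μ)} {Q : ι → Ω → Prop}
    (h : ∀ i, Rep (φ i) (Q i)) : Rep (fall φ) (fun x => ∀ i, Q i x) := by
  refine ⟨?_, fun p => ?_⟩
  · have : {x | ∀ i, Q i x} = ⋂ i, {x | Q i x} := by ext; simp
    rw [this]
    exact MeasurableSet.iInter fun i => (h i).1
  · change (∀ i, p ∈ φ i) ↔ _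
    simp only [fun i => (h i).2 p]
    rw [← ae_all_iff]
    exact eventually_congr (ae_of_all _ fun x => ⟨fun hx hp i => hx i hp, fun hx i hp => hx hp i⟩)

theorem Rep.congr {φ : Set (MAlg μ)} {Q R : Ω → Prop} (h : Rep φ Q) (hQ : ∀ x, Q x ↔ R x) :
    Rep φ R := by
  have : Q = R := funext fun x => propext (hQ x)
  rw [← this]
  exact h

theorem rep_ex {ι : Sort*} [Countable ι] {φ : ι → Set (MAlg μ)} {Q : ι → Ω → Prop}
    (h : ∀ i, Rep (φ i) (Q i)) : Rep (fex φ) (fun x => ∃ i, Q i x) :=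
  (rep_not (rep_all fun i => rep_not (h i))).congr fun x => by simp

theorem rep_imp {φ ψ : Set (MAlg μ)} {Q R : Ω → Prop} (h : Rep φ Q) (h' : Rep ψ R) :
    Rep (fimp φ ψ) (fun x => Q x → R x) :=
  (rep_not (rep_and h (rep_not h'))).congr fun x => by simp

theorem rep_iff {φ ψ : Set (MAlg μ)} {Q R : Ω → Prop} (h : Rep φ Q) (h' : Rep ψ R) :
    Rep (fiff φ ψ) (fun x => Q x ↔ R x) :=
  (rep_and (rep_imp h h') (rep_imp h' h)).congr fun x => by
    constructor
    · intro h; exact ⟨h.1, h.2⟩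
    · intro h; exact ⟨h.1, h.2⟩

end

end Pool.Agent.R582.GG
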