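import Mathlib

set_option autoImplicit false

/-!
# The product space `[0,1]^I`
-/

namespace Pool.Agent.R582.GG

open Set MeasureTheory Filter Topology
open scoped ENNReal

/-- the product `[0,1]^I` -/
abbrev Om (I : Type) : Type := I → unitInterval

/-- the product of the Lebesgue measures on `[0,1]` -/
noncomputable def mu (I : Type) : Measure (Om I) :=
  Measure.infinitePi fun _ : I => (volume : Measure unitInterval)

instance (I : Type) : IsProbabilityMeasure (mu I) := by unfold mu; infer_instance

variable {I : Type}

/-- `F` depends only on the coordinates in `A` -/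
def Dep (A : Set I) (F : Set (Om I)) : Prop :=
  ∀ x y : Om I, (∀ i ∈ A, x i = y i) → (x ∈ F ↔ y ∈ F)

theorem Dep.mono {A B : Set I} {F : Set (Om I)} (h : Dep A F) (hAB : A ⊆ B) : Dep B F :=
  fun x y hxy => h x y fun i hi => hxy i (hAB hi)

theorem Dep.compl {A : Set I} {F : Set (Om I)} (h : Dep A F) : Dep A Fᶜ :=
  fun x y hxy => not_congr (h x y hxy)

theorem Dep.inter {A : Set I} {F G : Set (Om I)} (h : Dep A F) (h' : Dep A G) : Dep A (F ∩ G) :=
  fun x y hxy => and_congr (h x y hxy) (h' x y hxy)

theorem Dep.union {A : Set I} {F G : Set (Om I)} (h : Dep A F) (h' : Dep A G) : Dep A (F ∪ G) :=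
  fun x y hxy => or_congr (h x y hxy) (h' x y hxy)

theorem Dep.diff {A : Set I} {F G : Set (Om I)} (h : Dep A F) (h' : Dep A G) : Dep A (F \ G) :=
  fun x y hxy => and_congr (h x y hxy) (not_congr (h' x y hxy))

theorem Dep.iUnion {ι : Sort*} {A : Set I} {F : ι → Set (Om I)} (h : ∀ i, Dep A (F i)) :
    Dep A (⋃ i, F i) := by
  intro x y hxy
  simp only [mem_iUnion]
  exact exists_congr fun i => h i x y hxy

theorem Dep.iInter {ι : Sort*} {A : Set I} {F : ι → Set (Om I)} (h : ∀ i, Dep A (F i)) :
    Dep A (⋂ i, F i) := by
  intro x y hxy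
  simp only [mem_iInter]
  exact forall_congr' fun i => h i x y hxy

theorem dep_univ (A : Set I) : Dep A (univ : Set (Om I)) := fun _ _ _ => Iff.rfl

/-- the coordinates in `A` from the first point, the others from the second one -/
noncomputable def glue (A : Set I) (z : Om I × Om I) : Om I :=
  open Classical in fun i => if i ∈ A then z.1 i else z.2 i

theorem glue_in {A : Set I} {z : Om I × Om I} {i : I} (h : i ∈ A) : glue A z i = z.1 i := by
  simp [glue, h]

theorem glue_out {A : Set I} {z : Om I × Om I} {i : I} (h : i ∉ A) : glue A z i = z.2 i := by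
  simp [glue, h]

theorem glue_meas (A : Set I) : Measurable (glue A) := by
  refine measurable_pi_lambda _ fun i => ?_
  by_cases h : i ∈ A
  · simp only [glue_in h]
    exact (measurable_pi_apply i).comp measurable_fst
  · simp only [glue_out h]
    exact (measurable_pi_apply i).comp measurable_snd

theorem glue_mp (A : Set I) : MeasurePreserving (glue A) ((mu I).prod (mu I)) (mu I) := by
  classical
  refine ⟨glue_meas A, ?_⟩
  conv_rhs => unfold mu
  apply Measure.eq_infinitePi
  intro s t ht
  have hpi : MeasurableSet (Set.pi (s : Set I) t : Set (Om I)) :=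
    MeasurableSet.pi s.countable_toSet fun i _ => ht i
  rw [Measure.map_apply (glue_meas A) hpi]
  have h1 : glue A ⁻¹' (Set.pi (s : Set I) t) =
      (Set.pi ((s.filter (· ∈ A) : Finset I) : Set I) t) ×ˢ
        (Set.pi ((s.filter (· ∉ A) : Finset I) : Set I) t) := by
    ext z
    simp only [mem_preimage, Set.mem_pi, Finset.mem_coe, mem_prod, Finset.coe_filter, mem_ofPred_eq]
    constructor
    · intro h
      exact ⟨fun i hi => by simpa [glue_in hi.2] using h i hi.1,
        fun i hi => by simpa [glue_out hi.2] using h i hi.1⟩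
    · rintro ⟨h1, h2⟩ i hi
      by_cases hA : i ∈ A
      · rw [glue_in hA]; exact h1 i ⟨hi, hA⟩
      · rw [glue_out hA]; exact h2 i ⟨hi, hA⟩
  rw [h1, Measure.prod_prod]
  unfold mu
  rw [Measure.infinitePi_pi _ (fun i _ => ht i), Measure.infinitePi_pi _ (fun i _ => ht i),
    Finset.prod_filter_mul_prod_filter_not]

/-- independence of disjoint sets of coordinates -/
theorem indep {A B : Set I} (hAB : Disjoint A B) {F G : Set (Om I)} (hF : MeasurableSet F)
    (hG : MeasurableSet G) (hFA : Dep A F) (hGB : Dep B G) :
    mu I (F ∩ G) = mu I F * mu I G := by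
  rw [← (glue_mp A).measure_preimage (hF.inter hG).nullMeasurableSet, ← Measure.prod_prod]
  congr 1
  ext z
  simp only [mem_preimage, mem_inter_iff, mem_prod]
  refine and_congr (hFA _ _ fun i hi => glue_in hi) (hGB _ _ fun i hi => glue_out fun h => ?_)
  exact disjoint_left.1 hAB h hi

theorem coord {S : Set unitInterval} (hS : MeasurableSet S) (u : I) :
    mu I {x | x u ∈ S} = volume S :=
  (measurePreserving_eval_infinitePi (fun _ : I => (volume : Measure unitInterval)) u).measure_preimage
    hS.nullMeasurableSet

theorem coord_meas {S : Set unitInterval} (hS : MeasurableSet S) (u : I) :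
    MeasurableSet {x : Om I | x u ∈ S} := measurable_pi_apply u hS

theorem coord_dep {S : Set unitInterval} (u : I) : Dep {u} {x : Om I | x u ∈ S} := by
  intro x y h
  simp only [mem_ofPred_eq]
  rw [h u rfl]

/-- the sets depending on countably many coordinates -/
def csup (I : Type) : MeasurableSpace (Om I) where
  MeasurableSet' E := ∃ C : Set I, C.Countable ∧ Dep C E
  measurableSet_empty := ⟨∅, countable_empty, fun _ _ _ => Iff.rfl⟩
  measurableSet_compl := by
    rintro E ⟨C, hC, h⟩
    exact ⟨C, hC, h.compl⟩
  measurableSet_iUnion := by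
    intro f hf
    choose C hC h using hf
    exact ⟨⋃ n, C n, countable_iUnion hC, Dep.iUnion fun n => (h n).mono (subset_iUnion C n)⟩

theorem exists_countable {E : Set (Om I)} (hE : MeasurableSet E) :
    ∃ C : Set I, C.Countable ∧ Dep C E := by
  have h : (inferInstance : MeasurableSpace (Om I)) ≤ csup I := by
    change MeasurableSpace.pi ≤ csup I
    unfold MeasurableSpace.pi
    refine iSup_le fun a => ?_
    rintro _ ⟨t, ht, rfl⟩
    exact ⟨{a}, countable_singleton a, coord_dep a⟩
  exact h _ hE

/-- the measure of the sections -/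
noncomputable def sec (A : Set I) (F : Set (Om I)) (x : Om I) : ℝ :=
  (mu I).real {y | glue A (x, y) ∈ F}

theorem sec_nonneg (A : Set I) (F : Set (Om I)) (x : Om I) : 0 ≤ sec A F x := measureReal_nonneg

theorem sec_le_one (A : Set I) (F : Set (Om I)) (x : Om I) : sec A F x ≤ 1 := measureReal_le_one

theorem section_meas {A : Set I} {F : Set (Om I)} (hF : MeasurableSet F) (x : Om I) :
    MeasurableSet {y | glue A (x, y) ∈ F} :=
  (glue_meas A).comp (measurable_const.prodMk measurable_id) hF

theorem sec_meas {A : Set I} {F : Set (Om I)} (hF : MeasurableSet F) : Measurable (sec A F) :=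
  (measurable_measure_prodMk_left (glue_meas A hF)).ennreal_toReal

theorem sec_congr {A T : Set I} {F : Set (Om I)} (hF : Dep T F) {x x' : Om I}
    (h : ∀ i ∈ A, i ∈ T → x i = x' i) : sec A F x = sec A F x' := by
  unfold sec
  congr 1
  ext y
  simp only [mem_ofPred_eq]
  refine hF _ _ fun i hi => ?_
  by_cases hA : i ∈ A
  · rw [glue_in hA, glue_in hA]; exact h i hA hi
  · rw [glue_out hA, glue_out hA]

theorem real_inter {A : Set I} {D F : Set (Om I)} (hD : MeasurableSet D) (hF : MeasurableSet F)
    (hDA : Dep A D) : (mu I).real (D ∩ F) = ∫ x in D, sec A F x ∂(mu I) := by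
  have h1 : mu I (D ∩ F) = ∫⁻ x in D, mu I {y | glue A (x, y) ∈ F} ∂(mu I) := by
    rw [← (glue_mp A).measure_preimage (hD.inter hF).nullMeasurableSet,
      Measure.prod_apply (glue_meas A (hD.inter hF)), ← lintegral_indicator hD]
    congr 1
    ext x
    by_cases hx : x ∈ D
    · rw [indicator_of_mem hx]
      congr 1
      ext y
      simp only [mem_preimage, mem_inter_iff, mem_ofPred_eq]
      refine and_iff_right ?_
      exact (hDA x _ fun i hi => (glue_in (z := (x, y)) hi).symm).1 hx
    · rw [indicator_of_notMem hx]
      have : Prod.mk x ⁻¹' (glue A ⁻¹' (D ∩ F)) = ∅ := by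
        ext y
        simp only [mem_preimage, mem_inter_iff, mem_empty_iff_false, iff_false, not_and]
        intro h
        exact absurd ((hDA x _ fun i hi => (glue_in (z := (x, y)) hi).symm).2 h) hx
      rw [this, measure_empty]
  unfold Measure.real sec Measure.real
  rw [h1, integral_toReal]
  · exact (measurable_measure_prodMk_left (glue_meas A hF)).aemeasurable
  · exact Eventually.of_forall fun x => measure_lt_top _ _

end Pool.Agent.R582.GG
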