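import Mathlib
import Pool.Agent.R582.GG.Glue

set_option autoImplicit false

/-!
# Random points depending on given coordinates, and mixtures
-/

namespace Pool.Agent.R582.GG

open Set MeasureTheory Filter Topology
open scoped ENNReal

variable {I : Type}

/-- the restriction of a sequence to its first `l` terms -/
def wd (x : ℕ → Bool) : ℕ → List Bool
  | 0 => []
  | l + 1 => wd x l ++ [x l]

theorem wd_length (x : ℕ → Bool) (l : ℕ) : (wd x l).length = l := by
  induction l with
  | zero => rfl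
  | succ l ih => simp [wd, ih]

theorem wd_take (x : ℕ → Bool) {k l : ℕ} (h : k ≤ l) : (wd x l).take k = wd x k := by
  induction l with
  | zero => obtain rfl : k = 0 := by omega
            simp [wd]
  | succ l ih =>
    rcases Nat.lt_or_ge l k with h' | h'
    · obtain rfl : k = l + 1 := by omega
      rw [List.take_of_length_le (wd_length x _).le]
    · rw [wd, List.take_append_of_le_length (by rw [wd_length]; exact h'), ih h']

open Classical in
/-- the random point -/
noncomputable def bits (A : ℕ → Set (Om I)) (x : Om I) (n : ℕ) : Bool := decide (x ∈ A n)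

/-- the random point starts with `s` -/
def IniS (A : ℕ → Set (Om I)) (s : List Bool) : Set (Om I) := {x | wd (bits A x) s.length = s}

/-- a random point depending on the coordinates in `T` -/
structure Strat (T : Set I) where
  A : ℕ → Set (Om I)
  meas : ∀ n, MeasurableSet (A n)
  dep : ∀ n, Dep T (A n)

theorem bits_congr {A : ℕ → Set (Om I)} {T : Set I} (h : ∀ n, Dep T (A n)) {x y : Om I}
    (hxy : ∀ i ∈ T, x i = y i) : bits A x = bits A y := by
  funext n
  unfold bits
  have := h n x y hxy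
  simp [this]

theorem iniS_nil (A : ℕ → Set (Om I)) : IniS A [] = univ := by
  ext x; simp [IniS, wd]

theorem iniS_snoc (A : ℕ → Set (Om I)) (s : List Bool) (b : Bool) :
    IniS A (s ++ [b]) = IniS A s ∩ {x | x ∈ A s.length ↔ b = true} := by
  classical
  ext x
  simp only [IniS, mem_ofPred_eq, mem_inter_iff, List.length_append, List.length_singleton, wd]
  have h0 : (wd (bits A x) s.length ++ [bits A x s.length] = s ++ [b]) ↔
      (wd (bits A x) s.length = s ∧ bits A x s.length = b) := by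
    constructor
    · intro h
      have := List.append_inj h (wd_length _ _)
      exact ⟨this.1, by simpa using this.2⟩
    · rintro ⟨h1, h2⟩
      rw [h1, h2]
  rw [h0]
  refine and_congr_right fun _ => ?_
  unfold bits
  cases b <;> simp

theorem iniS_meas {A : ℕ → Set (Om I)} (h : ∀ n, MeasurableSet (A n)) (s : List Bool) :
    MeasurableSet (IniS A s) := by
  induction s using List.reverseRecOn with
  | nil => rw [iniS_nil]; exact MeasurableSet.univ
  | append_singleton s b ih =>
    rw [iniS_snoc]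
    refine ih.inter ?_
    cases b
    · have : {x : Om I | x ∈ A s.length ↔ false = true} = (A s.length)ᶜ := by ext x; simp
      rw [this]; exact (h _).compl
    · have : {x : Om I | x ∈ A s.length ↔ true = true} = A s.length := by ext x; simp
      rw [this]; exact h _

theorem iniS_dep {A : ℕ → Set (Om I)} {T : Set I} (h : ∀ n, Dep T (A n)) (s : List Bool) :
    Dep T (IniS A s) := by
  intro x y hxy
  simp only [IniS, mem_ofPred_eq]
  rw [bits_congr h hxy]

/-- the strings of length `l` -/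
def Str (l : ℕ) : Finset (List Bool) :=
  (Finset.univ : Finset (Fin l → Bool)).image fun t => List.ofFn t

theorem mem_Str {l : ℕ} {s : List Bool} : s ∈ Str l ↔ s.length = l := by
  unfold Str
  rw [Finset.mem_image]
  constructor
  · rintro ⟨v, -, rfl⟩
    simp
  · rintro rfl
    exact ⟨s.get, Finset.mem_univ _, List.ofFn_get s⟩

/-- the random point is in the random open set given by `B` -/
def hit (B : List Bool → Set (Om I)) (A : ℕ → Set (Om I)) : Set (Om I) :=
  {x | ∃ k, x ∈ B (wd (bits A x) k)}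

/-- approximations of `hit` -/
def hitl (B : List Bool → Set (Om I)) (A : ℕ → Set (Om I)) (l : ℕ) : Set (Om I) :=
  {x | ∃ k ≤ l, x ∈ B (wd (bits A x) k)}

theorem hit_eq (B : List Bool → Set (Om I)) (A : ℕ → Set (Om I)) :
    hit B A = ⋃ s, B s ∩ IniS A s := by
  ext x
  simp only [hit, mem_ofPred_eq, mem_iUnion, mem_inter_iff, IniS]
  constructor
  · rintro ⟨k, hk⟩
    exact ⟨_, hk, by rw [wd_length]⟩
  · rintro ⟨s, h1, h2⟩
    exact ⟨s.length, by rw [h2]; exact h1⟩

theorem hit_meas {B : List Bool → Set (Om I)} {A : ℕ → Set (Om I)} (hB : ∀ s, MeasurableSet (B s))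
    (hA : ∀ n, MeasurableSet (A n)) : MeasurableSet (hit B A) := by
  rw [hit_eq]
  exact MeasurableSet.iUnion fun s => (hB s).inter (iniS_meas hA s)

theorem hitl_meas {B : List Bool → Set (Om I)} {A : ℕ → Set (Om I)} (hB : ∀ s, MeasurableSet (B s))
    (hA : ∀ n, MeasurableSet (A n)) (l : ℕ) : MeasurableSet (hitl B A l) := by
  have : hitl B A l = ⋃ s : List Bool, ⋃ (_ : s.length ≤ l), B s ∩ IniS A s := by
    ext x
    simp only [hitl, mem_ofPred_eq, mem_iUnion, mem_inter_iff, IniS]
    constructor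
    · rintro ⟨k, hk, h⟩
      exact ⟨_, by rw [wd_length]; exact hk, h, by rw [wd_length]⟩
    · rintro ⟨s, h0, h1, h2⟩
      exact ⟨s.length, h0, by rw [h2]; exact h1⟩
  rw [this]
  exact MeasurableSet.iUnion fun s => MeasurableSet.iUnion fun _ => (hB s).inter (iniS_meas hA s)

/-- the part of `q` where the open set misses the string `s` -/
def Gs (q : Set (Om I)) (B : List Bool → Set (Om I)) (s : List Bool) : Set (Om I) :=
  {x | x ∈ q ∧ ∀ k ≤ s.length, x ∉ B (s.take k)}

theorem Gs_meas {q : Set (Om I)} {B : List Bool → Set (Om I)} (hq : MeasurableSet q)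
    (hB : ∀ s, MeasurableSet (B s)) (s : List Bool) : MeasurableSet (Gs q B s) := by
  have : Gs q B s = q ∩ ⋂ k : ℕ, ⋂ (_ : k ≤ s.length), (B (s.take k))ᶜ := by
    ext x; simp [Gs]
  rw [this]
  exact hq.inter (MeasurableSet.iInter fun k => MeasurableSet.iInter fun _ => (hB _).compl)

theorem Gs_dep {C : Set I} {q : Set (Om I)} {B : List Bool → Set (Om I)} (hq : Dep C q)
    (hB : ∀ s, Dep C (B s)) (s : List Bool) : Dep C (Gs q B s) := by
  intro x y hxy
  simp only [Gs, mem_ofPred_eq]
  exact and_congr (hq x y hxy) (forall_congr' fun k => imp_congr_right fun _ =>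
    not_congr (hB _ x y hxy))

theorem diff_hitl (q : Set (Om I)) (B : List Bool → Set (Om I)) (A : ℕ → Set (Om I)) (l : ℕ) :
    q \ hitl B A l = ⋃ s ∈ Str l, Gs q B s ∩ IniS A s := by
  ext x
  simp only [Set.mem_sdiff, mem_iUnion, exists_prop, mem_inter_iff, mem_Str, IniS, mem_ofPred_eq, Gs,
    hitl, not_exists, not_and]
  constructor
  · rintro ⟨h1, h2⟩
    refine ⟨wd (bits A x) l, wd_length _ _, ⟨h1, fun k hk => ?_⟩, by rw [wd_length]⟩
    rw [wd_length] at hk
    rw [wd_take _ hk]
    exact h2 k hk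
  · rintro ⟨s, rfl, ⟨h1, h2⟩, h3⟩
    refine ⟨h1, fun k hk => ?_⟩
    have := h2 k hk
    rw [← h3, wd_take _ hk] at this
    exact this

theorem sec_integrable {C : Set I} {F : Set (Om I)} (hF : MeasurableSet F) (G : Set (Om I)) :
    Integrable (sec C F) ((mu I).restrict G) := by
  refine Integrable.of_bound (sec_meas hF).aestronglyMeasurable 1 (ae_of_all _ fun x => ?_)
  rw [Real.norm_eq_abs, abs_of_nonneg (sec_nonneg _ _ _)]
  exact sec_le_one _ _ _

theorem costl_eq {C : Set I} {q : Set (Om I)} {B : List Bool → Set (Om I)} (hq : MeasurableSet q)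
    (hB : ∀ s, MeasurableSet (B s)) (hqC : Dep C q) (hBC : ∀ s, Dep C (B s))
    {A : ℕ → Set (Om I)} (hA : ∀ n, MeasurableSet (A n)) (l : ℕ) :
    (mu I).real (q \ hitl B A l) = ∑ s ∈ Str l, ∫ x in Gs q B s, sec C (IniS A s) x ∂(mu I) := by
  rw [diff_hitl, measureReal_biUnion_finset]
  · exact Finset.sum_congr rfl fun s _ => real_inter (Gs_meas hq hB s) (iniS_meas hA s)
      (Gs_dep hqC hBC s)
  · intro s hs t ht hst
    simp only [Finset.mem_coe, mem_Str] at hs ht
    change Disjoint _ _
    rw [disjoint_left]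
    rintro x ⟨-, h1⟩ ⟨-, h2⟩
    simp only [IniS, mem_ofPred_eq] at h1 h2
    apply hst
    rw [← h1, ← h2, hs, ht]
  · intro s _
    exact (Gs_meas hq hB s).inter (iniS_meas hA s)

theorem cost_tendsto {q : Set (Om I)} {B : List Bool → Set (Om I)} (hq : MeasurableSet q)
    (hB : ∀ s, MeasurableSet (B s)) {A : ℕ → Set (Om I)} (hA : ∀ n, MeasurableSet (A n)) :
    Tendsto (fun l => (mu I).real (q \ hitl B A l)) atTop (𝓝 ((mu I).real (q \ hit B A))) := by
  have h1 : q \ hit B A = ⋂ l, q \ hitl B A l := by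
    ext x
    simp only [Set.mem_sdiff, hit, mem_ofPred_eq, not_exists, mem_iInter, hitl, not_and]
    constructor
    · rintro ⟨h1, h2⟩ l
      exact ⟨h1, fun k _ => h2 k⟩
    · intro h
      exact ⟨(h 0).1, fun k => (h k).2 k le_rfl⟩
  rw [h1]
  have h2 := tendsto_measure_iInter_atTop (μ := mu I) (s := fun l => q \ hitl B A l)
    (fun l => (hq.diff (hitl_meas hB hA l)).nullMeasurableSet)
    (fun l l' hl x hx => ⟨hx.1, fun ⟨k, hk, h⟩ => hx.2 ⟨k, hk.trans hl, h⟩⟩)
    ⟨0, measure_ne_top _ _⟩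
  exact (ENNReal.tendsto_toReal (measure_ne_top _ _)).comp h2

theorem cost_le {q : Set (Om I)} {B : List Bool → Set (Om I)} (A : ℕ → Set (Om I)) (l : ℕ) :
    (mu I).real (q \ hit B A) ≤ (mu I).real (q \ hitl B A l) :=
  measureReal_mono fun _ hx => ⟨hx.1, fun ⟨k, _, h⟩ => hx.2 ⟨k, h⟩⟩

/-- mixtures -/
theorem exists_mixture {T C : Set I} (hC : C.Countable)
    (hT : ∀ D : Set I, D.Countable → ∃ u ∈ T, u ∉ D) (A₁ A₂ : Strat T) {t : ℝ} (h0 : 0 ≤ t)
    (h1 : t ≤ 1) : ∃ A : Strat T, ∀ s x,
      sec C (IniS A.A s) x = t * sec C (IniS A₁.A s) x + (1 - t) * sec C (IniS A₂.A s) x := by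
  classical
  choose C₁ hC₁ hd₁ using fun n => exists_countable (A₁.meas n)
  choose C₂ hC₂ hd₂ using fun n => exists_countable (A₂.meas n)
  obtain ⟨u, huT, hu⟩ := hT (C ∪ (⋃ n, C₁ n) ∪ ⋃ n, C₂ n)
    ((hC.union (countable_iUnion hC₁)).union (countable_iUnion hC₂))
  simp only [mem_union, not_or] at hu
  obtain ⟨⟨huC, hu₁⟩, hu₂⟩ := hu
  set t' : unitInterval := ⟨t, h0, h1⟩ with ht'
  set L : Set (Om I) := {x | x u ∈ Iic t'} with hL
  have hLm : MeasurableSet L := coord_meas measurableSet_Iic u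
  have hLd : Dep {u} L := coord_dep u
  have hLT : Dep T L := hLd.mono (singleton_subset_iff.2 huT)
  let A : Strat T := ⟨fun n => (L ∩ A₁.A n) ∪ (Lᶜ ∩ A₂.A n),
    fun n => (hLm.inter (A₁.meas n)).union (hLm.compl.inter (A₂.meas n)),
    fun n => (hLT.inter (A₁.dep n)).union (hLT.compl.inter (A₂.dep n))⟩
  have hb₁ : ∀ x ∈ L, bits A.A x = bits A₁.A x := by
    intro x hx
    funext n
    unfold bits
    have : x ∈ A.A n ↔ x ∈ A₁.A n := by
      simp only [A, mem_union, mem_inter_iff, hx, true_and, mem_compl_iff, not_true_eq_false,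
        false_and, or_false]
    simp [this]
  have hb₂ : ∀ x ∉ L, bits A.A x = bits A₂.A x := by
    intro x hx
    funext n
    unfold bits
    have : x ∈ A.A n ↔ x ∈ A₂.A n := by
      simp only [A, mem_union, mem_inter_iff, hx, false_and, mem_compl_iff, not_false_eq_true,
        true_and, false_or]
    simp [this]
  refine ⟨A, fun s x => ?_⟩
  have hglue : ∀ y, glue C (x, y) ∈ L ↔ y ∈ L := by
    intro y
    simp only [hL, mem_ofPred_eq]
    rw [glue_out huC]
  have hset : {y | glue C (x, y) ∈ IniS A.A s} =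
      (L ∩ {y | glue C (x, y) ∈ IniS A₁.A s}) ∪ (Lᶜ ∩ {y | glue C (x, y) ∈ IniS A₂.A s}) := by
    ext y
    simp only [mem_ofPred_eq, mem_union, mem_inter_iff, mem_compl_iff, IniS]
    by_cases hy : y ∈ L
    · rw [hb₁ _ ((hglue y).2 hy)]
      simp [hy]
    · rw [hb₂ _ (fun h => hy ((hglue y).1 h))]
      simp [hy]
  have hdep : ∀ (E : Set (Om I)) (D : Set I), Dep D E → Dep D {y | glue C (x, y) ∈ E} := by
    intro E D hE y y' hyy
    simp only [mem_ofPred_eq]
    refine hE _ _ fun i hi => ?_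
    by_cases hiC : i ∈ C
    · rw [glue_in hiC, glue_in hiC]
    · rw [glue_out hiC, glue_out hiC]; exact hyy i hi
  have hd₁' : Dep (⋃ n, C₁ n) (IniS A₁.A s) :=
    iniS_dep (fun n => (hd₁ n).mono (subset_iUnion C₁ n)) s
  have hd₂' : Dep (⋃ n, C₂ n) (IniS A₂.A s) :=
    iniS_dep (fun n => (hd₂ n).mono (subset_iUnion C₂ n)) s
  have hLmu : (mu I).real L = t := by
    unfold Measure.real
    rw [hL, coord measurableSet_Iic, unitInterval.volume_Iic, ENNReal.toReal_ofReal h0]
  have hLmu' : (mu I).real Lᶜ = 1 - t := by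
    rw [probReal_compl_eq_one_sub hLm, hLmu]
  have e1 : (mu I).real (L ∩ {y | glue C (x, y) ∈ IniS A₁.A s}) =
      t * sec C (IniS A₁.A s) x := by
    rw [← hLmu]
    unfold sec Measure.real
    rw [indep (disjoint_singleton_left.2 hu₁) hLm (section_meas (iniS_meas A₁.meas s) x) hLd
      (hdep _ _ hd₁'), ENNReal.toReal_mul]
  have e2 : (mu I).real (Lᶜ ∩ {y | glue C (x, y) ∈ IniS A₂.A s}) =
      (1 - t) * sec C (IniS A₂.A s) x := by
    rw [← hLmu']
    unfold sec Measure.real
    rw [indep (disjoint_singleton_left.2 hu₂) hLm.compl (section_meas (iniS_meas A₂.meas s) x)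
      hLd.compl (hdep _ _ hd₂'), ENNReal.toReal_mul]
  rw [← e1, ← e2]
  conv_lhs => unfold sec
  rw [hset, measureReal_union]
  · rw [disjoint_left]
    rintro y ⟨h1, -⟩ ⟨h2, -⟩
    exact h2 h1
  · exact hLm.compl.inter (section_meas (iniS_meas A₂.meas s) x)

end Pool.Agent.R582.GG
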