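import Mathlib
import Pool.Agent.R582.GG.Strat

set_option autoImplicit false

/-!
# Limits of random points

From a decreasing sequence of sets of random points closed under mixtures one can choose random
points whose conditional laws converge, and the limit is the conditional law of a random point.
-/

namespace Pool.Agent.R582.GG

open Set MeasureTheory Filter Topology
open scoped ENNReal

variable {I : Type}

theorem sec_nil (C : Set I) (A : ℕ → Set (Om I)) (x : Om I) : sec C (IniS A []) x = 1 := by
  unfold sec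
  rw [iniS_nil]
  simp

theorem sec_split (C : Set I) {T : Set I} (A : Strat T) (s : List Bool) (x : Om I) :
    sec C (IniS A.A s) x = sec C (IniS A.A (s ++ [false])) x + sec C (IniS A.A (s ++ [true])) x := by
  unfold sec
  rw [← measureReal_union]
  · congr 1
    ext y
    simp only [mem_ofPred_eq, mem_union, iniS_snoc, mem_inter_iff]
    by_cases h : glue C (x, y) ∈ A.A s.length <;> simp [h]
  · rw [disjoint_left]
    intro y h1 h2
    simp only [mem_ofPred_eq, iniS_snoc, mem_inter_iff] at h1 h2
    have h3 := h1.2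
    have h4 := h2.2
    simp only [Bool.false_eq_true, iff_false, iff_true] at h3 h4
    exact h3 h4
  · exact section_meas (iniS_meas A.meas _) x

/-- an enumeration of the strings -/
def str (n : ℕ) : List Bool := (Encodable.decode n).getD []

theorem exists_str (s : List Bool) : ∃ n, str n = s := ⟨Encodable.encode s, by simp [str]⟩

/-- weights on `ℕ` -/
noncomputable def kap : Measure ℕ :=
  Measure.sum fun n : ℕ => (2⁻¹ : ℝ≥0∞) ^ (n + 1) • Measure.dirac n

instance : IsFiniteMeasure kap := by
  refine ⟨?_⟩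
  unfold kap
  rw [Measure.sum_apply _ MeasurableSet.univ]
  simp only [Measure.smul_apply, Measure.dirac_apply_of_mem (mem_univ _), smul_eq_mul, mul_one]
  rw [ENNReal.tsum_geometric_add_one]
  refine ENNReal.mul_lt_top (by simp) ?_
  rw [ENNReal.one_sub_inv_two, inv_inv]
  simp

theorem kap_pos (n : ℕ) : kap {n} ≠ 0 := by
  unfold kap
  rw [Measure.sum_apply _ (measurableSet_singleton n)]
  intro h
  have := ENNReal.tsum_eq_zero.1 h n
  simp at this

/-- the conditional law of a random point -/
noncomputable def FF (C : Set I) {T : Set I} (A : Strat T) (z : Om I × ℕ) : ℝ :=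
  sec C (IniS A.A (str z.2)) z.1

theorem FF_meas (C : Set I) {T : Set I} (A : Strat T) : Measurable (FF C A) :=
  measurable_from_prod_countable_left fun n => sec_meas (iniS_meas A.meas (str n))

theorem FF_nonneg (C : Set I) {T : Set I} (A : Strat T) (z : Om I × ℕ) : 0 ≤ FF C A z :=
  sec_nonneg _ _ _

theorem FF_le_one (C : Set I) {T : Set I} (A : Strat T) (z : Om I × ℕ) : FF C A z ≤ 1 :=
  sec_le_one _ _ _

theorem exists_cauchy {C T : Set I} (S : ℕ → Set (Strat T)) (hanti : Antitone S)
    (hne : ∀ k, (S k).Nonempty)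
    (hmid : ∀ k, ∀ A₁ ∈ S k, ∀ A₂ ∈ S k, ∃ A ∈ S k, ∀ z, FF C A z = (FF C A₁ z + FF C A₂ z) / 2) :
    ∃ A : ℕ → Strat T, (∀ j, A j ∈ S j) ∧
      ∀ᵐ z ∂((mu I).prod kap), ∃ l, Tendsto (fun j => FF C (A j) z) atTop (𝓝 l) := by
  set π := (mu I).prod kap with hπ
  have hint : ∀ f : Om I × ℕ → ℝ, Measurable f → (∀ z, |f z| ≤ 1) → Integrable f π := by
    intro f hf hb
    exact Integrable.of_bound hf.aestronglyMeasurable 1 (ae_of_all _ fun z => hb z)
  set N : Strat T → ℝ := fun A => ∫ z, (FF C A z) ^ 2 ∂π with hN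
  have hN0 : ∀ A, 0 ≤ N A := fun A => integral_nonneg fun z => sq_nonneg _
  have hsq : ∀ A : Strat T, Integrable (fun z => (FF C A z) ^ 2) π := fun A =>
    hint _ ((FF_meas C A).pow_const 2) fun z => by
      rw [abs_of_nonneg (sq_nonneg _)]
      exact pow_le_one₀ (FF_nonneg C A z) (FF_le_one C A z)
  have hN1 : ∀ A, N A ≤ π.real univ := by
    intro A
    have : ∫ z, (FF C A z) ^ 2 ∂π ≤ ∫ _, (1 : ℝ) ∂π :=
      integral_mono (hsq A) (integrable_const _) fun z =>
        pow_le_one₀ (FF_nonneg C A z) (FF_le_one C A z)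
    simpa using this
  set d : ℕ → ℝ := fun k => sInf (N '' S k) with hd
  have hbdd : ∀ k, BddBelow (N '' S k) := fun k => ⟨0, by rintro _ ⟨A, -, rfl⟩; exact hN0 A⟩
  have hdle : ∀ k, ∀ A ∈ S k, d k ≤ N A := fun k A hA => csInf_le (hbdd k) ⟨A, hA, rfl⟩
  have hdmono : Monotone d := fun k k' h =>
    csInf_le_csInf (hbdd k) ((hne k').image N) (image_mono (hanti h))
  have hdbdd : BddAbove (range d) := by
    refine ⟨π.real univ, ?_⟩
    rintro _ ⟨k, rfl⟩
    obtain ⟨A, hA⟩ := hne k
    exact (hdle k A hA).trans (hN1 A)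
  set D := ⨆ k, d k with hD
  have hδ : ∀ j : ℕ, 0 < (1 / 4 : ℝ) ^ j / 8 := fun j => by positivity
  have hK : ∀ j : ℕ, ∃ k ≥ j, D - (1 / 4 : ℝ) ^ j / 8 < d k := by
    intro j
    obtain ⟨k, hk⟩ := exists_lt_of_lt_ciSup (show D - (1 / 4 : ℝ) ^ j / 8 < ⨆ k, d k by
      rw [← hD]; linarith [hδ j])
    exact ⟨max j k, le_max_left _ _, hk.trans_le (hdmono (le_max_right _ _))⟩
  choose K hKj hK using hK
  have hA : ∀ j : ℕ, ∃ A ∈ S (K j), N A < d (K j) + (1 / 4 : ℝ) ^ j / 8 := by
    intro j
    obtain ⟨_, ⟨A, hA, rfl⟩, h⟩ := exists_lt_of_csInf_lt ((hne (K j)).image N)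
      (show sInf (N '' S (K j)) < d (K j) + (1 / 4 : ℝ) ^ j / 8 by
        have := hδ j
        simp only [hd]; linarith)
    exact ⟨A, hA, h⟩
  choose A hAS hAN using hA
  refine ⟨A, fun j => hanti (hKj j) (hAS j), ?_⟩
  have hdD : ∀ k, d k ≤ D := fun k => le_ciSup hdbdd k
  have hpow : ∀ {j n : ℕ}, j ≤ n → (1 / 4 : ℝ) ^ n ≤ (1 / 4 : ℝ) ^ j := fun h =>
    pow_le_pow_of_le_one (by norm_num) (by norm_num) h
  have hmain : ∀ j n m : ℕ, j ≤ n → j ≤ m →
      ∫ z, (FF C (A n) z - FF C (A m) z) ^ 2 ∂π < (1 / 4 : ℝ) ^ j := by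
    intro j n m hn hm
    have h1 : ∃ k, A n ∈ S k ∧ A m ∈ S k ∧ D - (1 / 4 : ℝ) ^ j / 8 < d k := by
      rcases le_total (K n) (K m) with h | h
      · exact ⟨K n, hAS n, hanti h (hAS m), by have := hK n; have := hpow hn; linarith⟩
      · exact ⟨K m, hanti h (hAS n), hAS m, by have := hK m; have := hpow hm; linarith⟩
    obtain ⟨k, hk1, hk2, hk3⟩ := h1
    obtain ⟨M, hM, hMf⟩ := hmid k _ hk1 _ hk2
    have h2 := hdle k M hM
    have h3 : N M = (N (A n) + N (A m)) / 2 - (∫ z, (FF C (A n) z - FF C (A m) z) ^ 2 ∂π) / 4 := by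
      have e1 : N M = ∫ z, ((FF C (A n) z) ^ 2 + (FF C (A m) z) ^ 2) / 2 -
          (FF C (A n) z - FF C (A m) z) ^ 2 / 4 ∂π := by
        refine integral_congr_ae (ae_of_all _ fun z => ?_)
        simp only [hMf z]
        ring
      have i1 : Integrable (fun z => (FF C (A n) z - FF C (A m) z) ^ 2) π := by
        refine hint _ (((FF_meas C (A n)).sub (FF_meas C (A m))).pow_const 2) fun z => ?_
        rw [abs_of_nonneg (sq_nonneg _), sq_le_one_iff_abs_le_one, abs_le]
        have a1 := FF_nonneg C (A n) z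
        have a2 := FF_le_one C (A n) z
        have a3 := FF_nonneg C (A m) z
        have a4 := FF_le_one C (A m) z
        constructor <;> linarith
      have i0 : Integrable (fun z => ((FF C (A n) z) ^ 2 + (FF C (A m) z) ^ 2) / 2) π :=
        ((hsq (A n)).add (hsq (A m))).div_const 2
      rw [e1, integral_sub i0 (i1.div_const 4), integral_div, integral_div]
      congr 2
      exact integral_add (hsq (A n)) (hsq (A m))
    have h4 := hAN n
    have h5 := hAN m
    have h6 := hdD (K n)
    have h7 := hdD (K m)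
    have h8 := hpow hn
    have h9 := hpow hm
    linarith
  refine Lp.ae_tendsto_of_cauchy_eLpNorm (f := fun j => FF C (A j)) (p := 2)
    (fun n => (FF_meas C (A n)).aestronglyMeasurable) (by norm_num)
    (B := fun j => ENNReal.ofReal ((1 / 2 : ℝ) ^ j)) ?_ ?_
  · rw [← ENNReal.ofReal_tsum_of_nonneg (fun n => by positivity) summable_geometric_two]
    exact ENNReal.ofReal_ne_top
  · intro j n m hn hm
    have hmem : MemLp (FF C (A n) - FF C (A m)) 2 π := by
      refine MemLp.of_bound ((FF_meas C (A n)).sub (FF_meas C (A m))).aestronglyMeasurable 1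
        (ae_of_all _ fun z => ?_)
      simp only [Pi.sub_apply, Real.norm_eq_abs, abs_le]
      have a1 := FF_nonneg C (A n) z
      have a2 := FF_le_one C (A n) z
      have a3 := FF_nonneg C (A m) z
      have a4 := FF_le_one C (A m) z
      constructor <;> linarith
    rw [hmem.eLpNorm_eq_integral_rpow_norm (by norm_num) (by norm_num)]
    apply (ENNReal.ofReal_lt_ofReal_iff (by positivity)).2
    have e2 : (2 : ℝ≥0∞).toReal = 2 := by norm_num
    rw [e2]
    have e3 : ∫ z, ‖(FF C (A n) - FF C (A m)) z‖ ^ (2 : ℝ) ∂π =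
        ∫ z, (FF C (A n) z - FF C (A m) z) ^ 2 ∂π := by
      refine integral_congr_ae (ae_of_all _ fun z => ?_)
      simp only [Pi.sub_apply, Real.norm_eq_abs, Real.rpow_two, sq_abs]
    rw [e3]
    have h := hmain j n m hn hm
    calc (∫ z, (FF C (A n) z - FF C (A m) z) ^ 2 ∂π) ^ (2 : ℝ)⁻¹
        < ((1 / 4 : ℝ) ^ j) ^ (2 : ℝ)⁻¹ :=
          Real.rpow_lt_rpow (integral_nonneg fun z => sq_nonneg _) h (by norm_num)
      _ = (1 / 2 : ℝ) ^ j := by
          rw [← Real.rpow_natCast, ← Real.rpow_natCast, ← Real.rpow_mul (by norm_num), mul_comm,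
            Real.rpow_mul (by norm_num)]
          congr 1
          rw [show (1 / 4 : ℝ) = (1 / 2) ^ (2 : ℝ) by norm_num, ← Real.rpow_mul (by norm_num)]
          norm_num

theorem str_dep {C T : Set I} (A : Strat T) (s : List Bool) {x x' : Om I}
    (h : ∀ i ∈ C, i ∈ T → x i = x' i) : sec C (IniS A.A s) x = sec C (IniS A.A s) x' :=
  sec_congr (iniS_dep A.dep s) h

/-- the left endpoint of the interval of a string -/
noncomputable def left (h : List Bool → ℝ) (s : List Bool) : ℝ :=
  ∑ i ∈ Finset.range s.length, if s.getD i false = true then h (s.take i ++ [false]) else 0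

theorem left_nil (h : List Bool → ℝ) : left h [] = 0 := by simp [left]

theorem left_snoc (h : List Bool → ℝ) (s : List Bool) (b : Bool) :
    left h (s ++ [b]) = left h s + if b = true then h (s ++ [false]) else 0 := by
  unfold left
  rw [List.length_append, List.length_singleton, Finset.sum_range_succ]
  congr 1
  · refine Finset.sum_congr rfl fun i hi => ?_
    have hi' : i < s.length := Finset.mem_range.1 hi
    rw [List.take_append_of_le_length hi'.le, List.getD_append _ _ _ _ hi']
  · rw [List.take_append_of_le_length le_rfl, List.take_length, List.getD_append_right _ _ _ _ le_rfl]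
    simp

theorem exists_limit {C T : Set I} (hC : C.Countable)
    (hT : ∀ D : Set I, D.Countable → ∃ u ∈ T, u ∉ D) (A : ℕ → Strat T)
    (hconv : ∀ᵐ z ∂((mu I).prod kap), ∃ l, Tendsto (fun j => FF C (A j) z) atTop (𝓝 l)) :
    ∃ L : Strat T, ∀ᵐ x ∂(mu I), ∀ s, Tendsto (fun j => sec C (IniS (A j).A s) x) atTop
      (𝓝 (sec C (IniS L.A s) x)) := by
  classical
  set h : List Bool → Om I → ℝ := fun s x => limsup (fun j => sec C (IniS (A j).A s) x) atTop with hh
  have hhmeas : ∀ s, Measurable (h s) := fun s =>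
    Measurable.limsup fun j => sec_meas (iniS_meas (A j).meas s)
  have hhdep : ∀ s {x x' : Om I}, (∀ i ∈ C, i ∈ T → x i = x' i) → h s x = h s x' := by
    intro s x x' hx
    simp only [hh]
    congr 1
    funext j
    exact str_dep (A j) s hx
  set Gd : Set (Om I) := {x | ∀ s, ∃ l, Tendsto (fun j => sec C (IniS (A j).A s) x) atTop (𝓝 l)} with hGd
  have hGae : ∀ᵐ x ∂(mu I), x ∈ Gd := by
    filter_upwards [Measure.ae_ae_of_ae_prod hconv] with x hx s
    obtain ⟨n, rfl⟩ := exists_str s
    have : ∀ n, ∃ l, Tendsto (fun j => FF C (A j) (x, n)) atTop (𝓝 l) := by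
      intro n
      by_contra hcon
      rw [ae_iff] at hx
      have h1 : ({n} : Set ℕ) ⊆ {a | ¬∃ l, Tendsto (fun j => FF C (A j) (x, a)) atTop (𝓝 l)} := by
        rintro m rfl
        exact hcon
      exact kap_pos n (measure_mono_null h1 hx)
    exact this n
  have hGdep : ∀ {x x' : Om I}, (∀ i ∈ C, i ∈ T → x i = x' i) → x ∈ Gd → x' ∈ Gd := by
    intro x x' hx hxG s
    obtain ⟨l, hl⟩ := hxG s
    refine ⟨l, ?_⟩
    have : (fun j => sec C (IniS (A j).A s) x') = fun j => sec C (IniS (A j).A s) x := by
      funext j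
      exact (str_dep (A j) s hx).symm
    rw [this]
    exact hl
  have hlim : ∀ x ∈ Gd, ∀ s, Tendsto (fun j => sec C (IniS (A j).A s) x) atTop (𝓝 (h s x)) := by
    intro x hx s
    obtain ⟨l, hl⟩ := hx s
    have : h s x = l := hl.limsup_eq
    rw [this]
    exact hl
  have hnil : ∀ x ∈ Gd, h [] x = 1 := fun x hx =>
    tendsto_nhds_unique (hlim x hx []) (by simp only [sec_nil]; exact tendsto_const_nhds)
  have hsplit : ∀ x ∈ Gd, ∀ s, h s x = h (s ++ [false]) x + h (s ++ [true]) x := fun x hx s =>
    tendsto_nhds_unique (hlim x hx s) (by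
      simp only [fun j => sec_split C (A j) s x]
      exact (hlim x hx _).add (hlim x hx _))
  have hpos : ∀ x ∈ Gd, ∀ s, 0 ≤ h s x := fun x hx s =>
    ge_of_tendsto' (hlim x hx s) fun j => sec_nonneg _ _ _
  obtain ⟨u, huT, huC⟩ := hT C hC
  set lf : List Bool → Om I → ℝ := fun s x => left (fun t => h t x) s with hlf
  have hlfmeas : ∀ s, Measurable (lf s) := by
    intro s
    simp only [hlf, left]
    refine Finset.measurable_fun_sum _ fun i _ => ?_
    by_cases hb : s.getD i false = true
    · simp only [hb, if_true]; exact hhmeas _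
    · simp only [hb]; exact measurable_const
  have hlfdep : ∀ s {x x' : Om I}, (∀ i ∈ C, i ∈ T → x i = x' i) → lf s x = lf s x' := by
    intro s x x' hx
    simp only [hlf]
    congr 1
    funext t
    exact hhdep t hx
  have hlfsnoc : ∀ s b x, lf (s ++ [b]) x = lf s x + if b = true then h (s ++ [false]) x else 0 :=
    fun s b x => left_snoc _ _ _
  -- the events
  set E : List Bool → Set (Om I) := fun s => {x | lf s x ≤ (x u : ℝ) ∧ (x u : ℝ) < lf s x + h s x}
    with hE
  have hu : Measurable fun x : Om I => ((x u : unitInterval) : ℝ) :=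
    measurable_subtype_coe.comp (measurable_pi_apply u)
  have hEmeas : ∀ s, MeasurableSet (E s) := fun s =>
    (measurableSet_le (hlfmeas s) hu).inter (measurableSet_lt hu ((hlfmeas s).add (hhmeas s)))
  have hEdep : ∀ s, Dep T (E s) := by
    intro s x y hxy
    simp only [hE, mem_ofPred_eq]
    rw [hlfdep s (x := x) (x' := y) fun i _ hi => hxy i hi,
      hhdep s (x := x) (x' := y) fun i _ hi => hxy i hi, hxy u huT]
  let L : Strat T := ⟨fun n => ⋃ s ∈ Str n, E (s ++ [true]),
    fun n => Finset.measurableSet_biUnion _ fun s _ => hEmeas _,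
    fun n => Dep.iUnion fun s => Dep.iUnion fun _ => hEdep _⟩
  have hsub : ∀ x ∈ Gd, ∀ s b, x ∈ E (s ++ [b]) → x ∈ E s := by
    intro x hx s b hb
    simp only [hE, mem_ofPred_eq, hlfsnoc] at hb ⊢
    have h1 := hsplit x hx s
    have h2 := hpos x hx (s ++ [false])
    have h3 := hpos x hx (s ++ [true])
    cases b
    · simp only [Bool.false_eq_true, if_false, add_zero] at hb
      exact ⟨hb.1, by linarith [hb.2]⟩
    · simp only [if_true] at hb
      exact ⟨by linarith [hb.1], by linarith [hb.2]⟩
  have hkey : ∀ x ∈ Gd, (x u : ℝ) < 1 → ∀ l, ∀ s : List Bool, s.length = l →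
      (x ∈ IniS L.A s ↔ x ∈ E s) := by
    intro x hx hx1 l
    induction l with
    | zero =>
      intro s hs
      obtain rfl : s = [] := List.length_eq_zero_iff.1 hs
      rw [iniS_nil]
      simp only [mem_univ, true_iff, hE, mem_ofPred_eq, hlf, left_nil]
      rw [hnil x hx]
      exact ⟨(x u).2.1, by linarith⟩
    | succ l ih =>
      intro s' hs'
      obtain ⟨s, b, rfl⟩ : ∃ s b, s' = s ++ [b] := by
        rcases List.eq_nil_or_concat s' with h0 | ⟨s, b, h0⟩
        · rw [h0] at hs'; simp at hs'
        · exact ⟨s, b, by rw [h0, List.concat_eq_append]⟩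
      have hs : s.length = l := by simpa using hs'
      rw [iniS_snoc, mem_inter_iff, mem_ofPred_eq]
      have hA : x ∈ E s → (x ∈ L.A s.length ↔ x ∈ E (s ++ [true])) := by
        intro hxs
        simp only [L, mem_iUnion, exists_prop, mem_Str]
        constructor
        · rintro ⟨t, ht, hxt⟩
          have h1 := (ih t (ht.trans hs)).2 (hsub x hx t true hxt)
          have h2 := (ih s hs).2 hxs
          have h3 : t = s := by
            simp only [IniS, mem_ofPred_eq] at h1 h2
            rw [← h1, ← h2, ht]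
          rw [h3] at hxt
          exact hxt
        · intro h1
          exact ⟨s, rfl, h1⟩
      rw [ih s hs]
      constructor
      · rintro ⟨h1, h2⟩
        rw [hA h1] at h2
        cases b
        · simp only [Bool.false_eq_true, iff_false] at h2
          simp only [hE, mem_ofPred_eq, hlfsnoc, Bool.false_eq_true, if_false, if_true, add_zero,
            not_and, not_lt] at h1 h2 ⊢
          have h4 := hsplit x hx s
          refine ⟨h1.1, ?_⟩
          by_contra hcon
          have := h2 (not_lt.1 hcon)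
          linarith [h1.2]
        · exact h2.2 rfl
      · intro h1
        have h2 := hsub x hx s b h1
        refine ⟨h2, ?_⟩
        rw [hA h2]
        cases b
        · simp only [Bool.false_eq_true, iff_false]
          simp only [hE, mem_ofPred_eq, hlfsnoc, Bool.false_eq_true, if_false, if_true, add_zero,
            not_and, not_lt] at h1 ⊢
          intro h5
          linarith [h1.2]
        · simp only [iff_true]
          exact h1
  have hbd : ∀ x ∈ Gd, ∀ s : List Bool, 0 ≤ lf s x ∧ lf s x + h s x ≤ 1 := by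
    intro x hx s
    induction s using List.reverseRecOn with
    | nil =>
      simp only [hlf, left_nil]
      rw [hnil x hx]
      simp
    | append_singleton s b ih =>
      rw [hlfsnoc]
      have h1 := hsplit x hx s
      have h2 := hpos x hx (s ++ [false])
      have h3 := hpos x hx (s ++ [true])
      cases b
      · simp only [Bool.false_eq_true, if_false, add_zero]
        exact ⟨ih.1, by linarith [ih.2]⟩
      · simp only [if_true]
        exact ⟨by linarith [ih.1], by linarith [ih.2]⟩
  refine ⟨L, ?_⟩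
  filter_upwards [hGae] with x hx s
  have hfin : sec C (IniS L.A s) x = h s x := by
    obtain ⟨b0, b1⟩ := hbd x hx s
    have b2 := hpos x hx s
    have hv : mu I {y | y u ∈ Ico (⟨lf s x, b0, by linarith⟩ : unitInterval)
        ⟨lf s x + h s x, by linarith, b1⟩} = ENNReal.ofReal (h s x) := by
      rw [coord measurableSet_Ico, unitInterval.volume_Ico]
      congr 1
      simp
    have h1 : ∀ᵐ y ∂(mu I), y u ≠ 1 := by
      rw [ae_iff]
      simp only [not_not]
      have := coord (measurableSet_singleton (1 : unitInterval)) u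
      simp only [mem_singleton_iff] at this
      rw [this]
      simp
    unfold sec Measure.real
    rw [measure_congr (t := {y | y u ∈ Ico (⟨lf s x, b0, by linarith⟩ : unitInterval)
        ⟨lf s x + h s x, by linarith, b1⟩}), hv, ENNReal.toReal_ofReal b2]
    filter_upwards [h1] with y hy
    have hag : ∀ i ∈ C, i ∈ T → x i = glue C (x, y) i := fun i hi _ => (glue_in (z := (x, y)) hi).symm
    have hgG : glue C (x, y) ∈ Gd := hGdep hag hx
    have hgu : glue C (x, y) u = y u := glue_out huC
    have hlt : ((glue C (x, y) u : unitInterval) : ℝ) < 1 := by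
      rw [hgu]
      exact lt_of_le_of_ne (y u).2.2 fun h2 => hy (Subtype.ext h2)
    have := hkey _ hgG hlt s.length s rfl
    apply propext
    change glue C (x, y) ∈ IniS L.A s ↔ y u ∈ Ico _ _
    rw [this]
    simp only [hE, mem_ofPred_eq]
    rw [← hlfdep s hag, ← hhdep s hag, hgu]
    rw [mem_Ico, ← Subtype.coe_le_coe, ← Subtype.coe_lt_coe]
  rw [hfin]
  exact hlim x hx s

end Pool.Agent.R582.GG
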