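import Mathlib
import Pool.Agent.R582.GG.Limit

set_option autoImplicit false

/-!
# The minimax lemma
-/

namespace Pool.Agent.R582.GG

open Set MeasureTheory Filter Topology
open scoped ENNReal

variable {I : Type}

theorem cost_mix {C T : Set I} (hC : C.Countable)
    (hT : ∀ D : Set I, D.Countable → ∃ u ∈ T, u ∉ D) {q : Set (Om I)} (hq : MeasurableSet q)
    (hqC : Dep C q) {B : ℕ → List Bool → Set (Om I)} (hB : ∀ m s, MeasurableSet (B m s))
    (hBC : ∀ m s, Dep C (B m s)) (A₁ A₂ : Strat T) {t : ℝ} (h0 : 0 ≤ t) (h1 : t ≤ 1) :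
    ∃ A : Strat T, (∀ z, FF C A z = t * FF C A₁ z + (1 - t) * FF C A₂ z) ∧
      ∀ m, (mu I).real (q \ hit (B m) A.A) = t * (mu I).real (q \ hit (B m) A₁.A) +
        (1 - t) * (mu I).real (q \ hit (B m) A₂.A) := by
  obtain ⟨A, hA⟩ := exists_mixture hC hT A₁ A₂ h0 h1
  refine ⟨A, fun z => hA _ _, fun m => ?_⟩
  have hl : ∀ l, (mu I).real (q \ hitl (B m) A.A l) = t * (mu I).real (q \ hitl (B m) A₁.A l) +
      (1 - t) * (mu I).real (q \ hitl (B m) A₂.A l) := by
    intro l
    rw [costl_eq hq (hB m) hqC (hBC m) A.meas, costl_eq hq (hB m) hqC (hBC m) A₁.meas,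
      costl_eq hq (hB m) hqC (hBC m) A₂.meas, Finset.mul_sum, Finset.mul_sum,
      ← Finset.sum_add_distrib]
    refine Finset.sum_congr rfl fun s _ => ?_
    rw [← integral_const_mul, ← integral_const_mul, ← integral_add]
    · exact integral_congr_ae (ae_of_all _ fun x => hA s x)
    · exact (sec_integrable (iniS_meas A₁.meas s) _).const_mul _
    · exact (sec_integrable (iniS_meas A₂.meas s) _).const_mul _
  refine tendsto_nhds_unique (cost_tendsto hq (hB m) A.meas) ?_
  simp only [hl]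
  exact ((cost_tendsto hq (hB m) A₁.meas).const_mul t).add
    ((cost_tendsto hq (hB m) A₂.meas).const_mul (1 - t))

instance {T : Set I} : Nonempty (Strat T) :=
  ⟨⟨fun _ => ∅, fun _ => MeasurableSet.empty, fun _ _ _ _ => Iff.rfl⟩⟩

/-- finite minimax -/
theorem fin_minimax {E : Type} [Nonempty E] (K : ℕ) (c : Fin K → E → ℝ)
    (hmix : ∀ a b : E, ∀ t : ℝ, 0 ≤ t → t ≤ 1 → ∃ e : E, ∀ m, c m e = t * c m a + (1 - t) * c m b)
    {ε : ℝ} (hno : ∀ ν : Fin K → ℝ, (∀ m, 0 ≤ ν m) → ∑ m, ν m = 1 → ∃ e, ε < ∑ m, ν m * c m e) :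
    ∃ e, ∀ m, ε < c m e := by
  by_contra hcon
  push Not at hcon
  set S : Set (Fin K → ℝ) := range fun e m => c m e with hS
  set O : Set (Fin K → ℝ) := {y | ∀ m, ε < y m} with hO
  have hSc : Convex ℝ S := by
    rintro _ ⟨a, rfl⟩ _ ⟨b, rfl⟩ s t hs ht hst
    obtain ⟨e, he⟩ := hmix a b s hs (by linarith)
    refine ⟨e, ?_⟩
    funext m
    have h1 : 1 - s = t := by linarith
    simp only [Pi.add_apply, Pi.smul_apply, smul_eq_mul, he m, h1]
  have hOc : Convex ℝ O := by
    intro x hx y hy s t hs ht hst m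
    simp only [Pi.add_apply, Pi.smul_apply, smul_eq_mul]
    have h1 := hx m
    have h2 := hy m
    rcases hs.eq_or_lt with h0 | h0
    · rw [← h0] at hst ⊢
      have : t = 1 := by linarith
      rw [this]; linarith
    · have h3 : s * ε < s * x m := (mul_lt_mul_iff_right₀ h0).2 h1
      have h4 : t * ε ≤ t * y m := mul_le_mul_of_nonneg_left h2.le ht
      have h5 : s * ε + t * ε = ε := by rw [← add_mul, hst, one_mul]
      linarith
  have hOo : IsOpen O := by
    have : O = ⋂ m, {y : Fin K → ℝ | ε < y m} := by ext; simp [hO]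
    rw [this]
    exact isOpen_iInter_of_finite fun m => isOpen_lt continuous_const (continuous_apply m)
  have hdis : Disjoint O S := by
    rw [disjoint_left]
    rintro _ hy ⟨e, rfl⟩
    obtain ⟨m, hm⟩ := hcon e
    exact absurd (hy m) (not_lt.2 hm)
  obtain ⟨f, u, hf1, hf2⟩ := geometric_hahn_banach_open hOc hOo hSc hdis
  have hfs : ∀ y : Fin K → ℝ, f y = ∑ m, y m * f (Pi.single m 1) := by
    intro y
    have h1 : y = ∑ m, y m • (Pi.single m (1 : ℝ) : Fin K → ℝ) := by
      funext i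
      simp [Finset.sum_apply, Pi.single_apply]
    conv_lhs => rw [h1]
    rw [map_sum]
    exact Finset.sum_congr rfl fun m _ => by rw [map_smul, smul_eq_mul]
  set a : Fin K → ℝ := fun m => - f (Pi.single m 1) with ha
  have hfa : ∀ y : Fin K → ℝ, f y = - ∑ m, a m * y m := by
    intro y
    rw [hfs, ← Finset.sum_neg_distrib]
    refine Finset.sum_congr rfl fun m _ => ?_
    simp only [ha]; ring
  have hconst : ∀ δ : ℝ, 0 < δ → - ((ε + δ) * ∑ m, a m) < u := by
    intro δ hδ
    have := hf1 (fun _ => ε + δ) (fun m => by simpa using hδ)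
    rw [hfa] at this
    rw [Finset.mul_sum]
    calc - ∑ m, (ε + δ) * a m = - ∑ m, a m * (ε + δ) := by simp only [mul_comm]
      _ < u := this
  have ha0 : ∀ m, 0 ≤ a m := by
    intro m
    by_contra hneg
    push Not at hneg
    -- go to infinity in direction m
    obtain ⟨R, hR0, hR⟩ : ∃ R : ℝ, 0 ≤ R ∧ u ≤ - ((ε + 1) * ∑ i, a i) - R * a m := by
      refine ⟨max 0 ((u + (ε + 1) * ∑ i, a i) / (- a m)), le_max_left _ _, ?_⟩
      have h1 : (u + (ε + 1) * ∑ i, a i) / (- a m) ≤ max 0 ((u + (ε + 1) * ∑ i, a i) / (- a m)) :=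
        le_max_right _ _
      have h2 : 0 < - a m := by linarith
      rw [div_le_iff₀ h2] at h1
      linarith
    have h1 := hf1 ((fun _ => ε + 1) + R • Pi.single m (1 : ℝ)) (fun i => by
      simp only [Pi.add_apply, Pi.smul_apply, smul_eq_mul]
      have : 0 ≤ R * (Pi.single m (1 : ℝ) : Fin K → ℝ) i := by
        refine mul_nonneg hR0 ?_
        by_cases h : i = m
        · subst h; simp
        · simp [Pi.single_apply, h]
      linarith)
    rw [map_add, map_smul, smul_eq_mul, hfa] at h1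
    have h2 : f (Pi.single m 1) = - a m := by simp [ha]
    rw [h2] at h1
    have h3 : ∑ i, a i * (ε + 1) = (ε + 1) * ∑ i, a i := by rw [Finset.mul_sum]; simp only [mul_comm]
    rw [h3] at h1
    linarith
  obtain ⟨e₀⟩ := (inferInstance : Nonempty E)
  have hsum : 0 < ∑ m, a m := by
    rcases (Finset.sum_nonneg fun m _ => ha0 m).eq_or_lt with h | h
    · exfalso
      have h1 : ∀ m, a m = 0 := fun m =>
        (Finset.sum_eq_zero_iff_of_nonneg fun i _ => ha0 i).1 h.symm m (Finset.mem_univ m)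
      have h2 := hf2 _ ⟨e₀, rfl⟩
      rw [hfa] at h2
      simp only [h1, zero_mul, Finset.sum_const_zero, neg_zero] at h2
      have h3 := hconst 1 one_pos
      rw [← h] at h3
      simp only [mul_zero, neg_zero] at h3
      linarith
    · exact h
  obtain ⟨e, he⟩ := hno (fun m => a m / ∑ i, a i) (fun m => div_nonneg (ha0 m) hsum.le)
    (by rw [← Finset.sum_div, div_self hsum.ne'])
  have h1 : ε * ∑ i, a i < ∑ m, a m * c m e := by
    have h2 : ∑ m, a m / (∑ i, a i) * c m e = (∑ m, a m * c m e) / ∑ i, a i := by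
      rw [Finset.sum_div]
      exact Finset.sum_congr rfl fun m _ => by ring
    rw [h2, lt_div_iff₀ hsum] at he
    exact he
  have h2 := hf2 _ ⟨e, rfl⟩
  rw [hfa] at h2
  -- choose δ
  set δ := (∑ m, a m * c m e - ε * ∑ i, a i) / ∑ i, a i with hδ
  have hδ0 : 0 < δ := div_pos (by linarith) hsum
  have h3 := hconst δ hδ0
  have h4 : (ε + δ) * ∑ i, a i = ∑ m, a m * c m e := by
    rw [add_mul, hδ, div_mul_cancel₀ _ hsum.ne']
    ring
  rw [h4] at h3
  linarith

theorem key {C T : Set I} (hC : C.Countable)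
    (hT : ∀ D : Set I, D.Countable → ∃ u ∈ T, u ∉ D) {q : Set (Om I)} (hq : MeasurableSet q)
    (hqC : Dep C q) {B : ℕ → List Bool → Set (Om I)} (hB : ∀ m s, MeasurableSet (B m s))
    (hBC : ∀ m s, Dep C (B m s))
    (hyp : ∀ A : Strat T, Tendsto (fun m => (mu I).real (q \ hit (B m) A.A)) atTop (𝓝 0))
    {ε : ℝ} (hε : 0 < ε) : ∃ (K : ℕ) (ν : Fin K → ℝ), (∀ m, 0 ≤ ν m) ∧ ∑ m, ν m = 1 ∧
      ∀ A : Strat T, ∑ m : Fin K, ν m * (mu I).real (q \ hit (B m) A.A) ≤ ε := by
  by_contra hcon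
  push Not at hcon
  have h1 : ∀ K : ℕ, ∃ A : Strat T, ∀ m < K, ε ≤ (mu I).real (q \ hit (B m) A.A) := by
    intro K
    obtain ⟨A, hA⟩ := fin_minimax (E := Strat T) K (fun m A => (mu I).real (q \ hit (B m) A.A))
      (fun a b t ht0 ht1 => by
        obtain ⟨A, -, hA⟩ := cost_mix hC hT hq hqC hB hBC a b ht0 ht1
        exact ⟨A, fun m => hA m⟩) (ε := ε) (fun ν hν0 hν1 => hcon K ν hν0 hν1)
    exact ⟨A, fun m hm => (hA ⟨m, hm⟩).le⟩
  set S : ℕ → Set (Strat T) := fun K => {A | ∀ m < K, ε ≤ (mu I).real (q \ hit (B m) A.A)} with hS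
  obtain ⟨A, hAS, hconv⟩ := exists_cauchy (C := C) S
    (fun K K' h A hA m hm => hA m (hm.trans_le h)) h1
    (fun K A₁ hA₁ A₂ hA₂ => by
      obtain ⟨A, hA, hA'⟩ := cost_mix hC hT hq hqC hB hBC A₁ A₂ (t := 1 / 2) (by norm_num)
        (by norm_num)
      refine ⟨A, fun m hm => ?_, fun z => ?_⟩
      · rw [hA' m]
        have := hA₁ m hm
        have := hA₂ m hm
        linarith
      · rw [hA z]; ring)
  obtain ⟨L, hL⟩ := exists_limit hC hT A hconv
  have h2 : ∀ m, ε ≤ (mu I).real (q \ hit (B m) L.A) := by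
    intro m
    refine ge_of_tendsto' (cost_tendsto hq (hB m) L.meas) fun l => ?_
    have h3 : Tendsto (fun j => (mu I).real (q \ hitl (B m) (A j).A l)) atTop
        (𝓝 ((mu I).real (q \ hitl (B m) L.A l))) := by
      simp only [costl_eq hq (hB m) hqC (hBC m) (A _).meas, costl_eq hq (hB m) hqC (hBC m) L.meas]
      refine tendsto_finsetSum _ fun s _ => ?_
      refine tendsto_integral_of_dominated_convergence (fun _ => 1)
        (fun j => (sec_meas (iniS_meas (A j).meas s)).aestronglyMeasurable) (integrable_const _)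
        (fun j => ae_of_all _ fun x => ?_) ?_
      · rw [Real.norm_eq_abs, abs_of_nonneg (sec_nonneg _ _ _)]
        exact sec_le_one _ _ _
      · exact ae_restrict_of_ae (hL.mono fun x hx => hx s)
    refine ge_of_tendsto h3 ?_
    filter_upwards [eventually_gt_atTop m] with j hj
    exact (hAS j m hj).trans (cost_le _ _)
  have h4 : ε ≤ 0 := ge_of_tendsto' (hyp L) h2
  linarith

end Pool.Agent.R582.GG
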