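import Mathlib
import Pool.Agent.R582.GG.Minimax

set_option autoImplicit false

/-!
# The random selection
-/

namespace Pool.Agent.R582.GG

open Set MeasureTheory Filter Topology
open scoped ENNReal

variable {I : Type}

theorem hit_dep {T C : Set I} {B : List Bool → Set (Om I)} (hB : ∀ s, Dep C (B s)) (A : Strat T) :
    Dep (C ∪ T) (hit B A.A) := by
  rw [hit_eq]
  exact Dep.iUnion fun s => ((hB s).mono subset_union_left).inter
    ((iniS_dep A.dep s).mono subset_union_right)

theorem cost_zero {q : Set (Om I)} (hq : MeasurableSet q) {H : ℕ → Set (Om I)}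
    (hH : ∀ m, MeasurableSet (H m)) (h : ∀ᵐ x ∂(mu I), x ∈ q → ∀ᶠ m in atTop, x ∈ H m) :
    Tendsto (fun m => (mu I).real (q \ H m)) atTop (𝓝 0) := by
  set bad : ℕ → Set (Om I) := fun k => ⋃ m, ⋃ (_ : k ≤ m), q \ H m with hbad
  have h1 : mu I (⋂ k, bad k) = 0 := by
    have h2 : (⋂ k, bad k) ⊆ {x | ¬ (x ∈ q → ∀ᶠ m in atTop, x ∈ H m)} := by
      intro x hx hcon
      simp only [hbad, mem_iInter, mem_iUnion, exists_prop] at hx
      obtain ⟨m, -, hm⟩ := hx 0
      obtain ⟨k, hk⟩ := eventually_atTop.1 (hcon hm.1)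
      obtain ⟨m', hm', hm''⟩ := hx k
      exact hm''.2 (hk m' hm')
    exact measure_mono_null h2 (ae_iff.1 h)
  have h3 := tendsto_measure_iInter_atTop (μ := mu I) (s := bad)
    (fun k => (MeasurableSet.iUnion fun m => MeasurableSet.iUnion fun _ =>
      hq.diff (hH m)).nullMeasurableSet)
    (fun k k' hk x hx => by
      simp only [hbad, mem_iUnion, exists_prop] at hx ⊢
      obtain ⟨m, hm, hm'⟩ := hx
      exact ⟨m, hk.trans hm, hm'⟩)
    ⟨0, measure_ne_top _ _⟩
  rw [h1] at h3
  have h4 : Tendsto (fun k => (mu I).real (bad k)) atTop (𝓝 0) :=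
    (ENNReal.tendsto_toReal (by simp)).comp h3
  refine squeeze_zero (fun _ => measureReal_nonneg) (fun m => ?_) h4
  refine measureReal_mono (fun x hx => ?_) (measure_ne_top _ _)
  simp only [hbad, mem_iUnion, exists_prop]
  exact ⟨m, le_rfl, hx⟩

theorem select {C T : Set I} (hC : C.Countable)
    (hT : ∀ D : Set I, D.Countable → ∃ u ∈ T, u ∉ D) {v : I} (hvC : v ∉ C) (hvT : v ∉ T)
    {q : Set (Om I)} (hq : MeasurableSet q) (hqC : Dep C q)
    {B : ℕ → ℕ → List Bool → Set (Om I)} (hB : ∀ n m s, MeasurableSet (B n m s))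
    (hBC : ∀ n m s, Dep C (B n m s))
    (hyp : ∀ A : Strat T, ∀ n, ∀ᵐ x ∂(mu I), x ∈ q → ∀ᶠ m in atTop, x ∈ hit (B n m) A.A) :
    ∃ J : ℕ → ℕ → Set (Om I), (∀ n m, MeasurableSet (J n m)) ∧
      (∀ᵐ x ∂(mu I), ∀ n, ∃ m, x ∈ J n m) ∧
      ∀ A : Strat T, ∀ᵐ x ∂(mu I), x ∈ q →
        ∀ᶠ n in atTop, ∀ m, x ∈ J n m → x ∈ hit (B n m) A.A := by
  have h1 : ∀ n : ℕ, ∃ (K : ℕ) (ν : Fin K → ℝ), (∀ m, 0 ≤ ν m) ∧ ∑ m, ν m = 1 ∧
      ∀ A : Strat T, ∑ m : Fin K, ν m * (mu I).real (q \ hit (B n m) A.A) ≤ (1 / 2 : ℝ) ^ n :=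
    fun n => key hC hT hq hqC (hB n) (hBC n)
      (fun A => cost_zero hq (fun m => hit_meas (hB n m) A.meas) (hyp A n)) (by positivity)
  choose K ν hν0 hν1 hν using h1
  set w : ℕ → ℕ → ℝ := fun n m => if h : m < K n then ν n ⟨m, h⟩ else 0 with hw
  have hw0 : ∀ n m, 0 ≤ w n m := by
    intro n m
    simp only [hw]
    split_ifs
    · exact hν0 _ _
    · exact le_rfl
  set cum : ℕ → ℕ → ℝ := fun n m => ∑ j ∈ Finset.range m, w n j with hcum
  have hcs : ∀ n m, cum n (m + 1) = cum n m + w n m := fun n m => Finset.sum_range_succ _ _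
  have hcK : ∀ n, cum n (K n) = 1 := by
    intro n
    simp only [hcum]
    rw [Finset.sum_range, ← hν1 n]
    refine Finset.sum_congr rfl fun m _ => ?_
    simp [hw, m.2]
  have hcmono : ∀ n, Monotone (cum n) := fun n =>
    monotone_nat_of_le_succ fun m => by rw [hcs]; linarith [hw0 n m]
  have hcge : ∀ n m, K n ≤ m → cum n m = 1 := by
    intro n m hm
    induction m, hm using Nat.le_induction with
    | base => exact hcK n
    | succ m hm ih =>
      rw [hcs, ih]
      have : w n m = 0 := by simp only [hw]; rw [dif_neg (by omega)]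
      rw [this, add_zero]
  have hc1 : ∀ n m, cum n m ≤ 1 := fun n m =>
    (hcmono n (le_max_left m (K n))).trans (hcge n _ (le_max_right _ _)).le
  have hc0 : ∀ n m, 0 ≤ cum n m := fun n m => Finset.sum_nonneg fun j _ => hw0 n j
  set J : ℕ → ℕ → Set (Om I) := fun n m =>
    {x | x v ∈ Ico (⟨cum n m, hc0 n m, hc1 n m⟩ : unitInterval)
      ⟨cum n (m + 1), hc0 n _, hc1 n _⟩} with hJ
  have hJm : ∀ n m, MeasurableSet (J n m) := fun n m => coord_meas measurableSet_Ico v
  have hJd : ∀ n m, Dep {v} (J n m) := fun n m => coord_dep v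
  have hJmu : ∀ n m, mu I (J n m) = ENNReal.ofReal (w n m) := by
    intro n m
    simp only [hJ]
    rw [coord measurableSet_Ico, unitInterval.volume_Ico]
    congr 1
    simp only [hcs]
    ring
  refine ⟨J, hJm, ?_, fun A => ?_⟩
  · have h1 : ∀ᵐ y ∂(mu I), y v ≠ 1 := by
      rw [ae_iff]
      simp only [not_not]
      have := coord (measurableSet_singleton (1 : unitInterval)) v
      simp only [mem_singleton_iff] at this
      rw [this]
      simp
    filter_upwards [h1] with x hx n
    classical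
    have hlt : ((x v : unitInterval) : ℝ) < 1 := lt_of_le_of_ne (x v).2.2 fun h => hx (Subtype.ext h)
    have hex : ∃ k, ((x v : unitInterval) : ℝ) < cum n k := ⟨K n, by rw [hcK]; exact hlt⟩
    have hk := Nat.find_spec hex
    rcases Nat.eq_zero_or_pos (Nat.find hex) with h0 | h0
    · exfalso
      rw [h0] at hk
      have : cum n 0 = 0 := by simp [hcum]
      rw [this] at hk
      exact absurd (x v).2.1 (not_le.2 hk)
    · refine ⟨Nat.find hex - 1, ?_⟩
      simp only [hJ, mem_ofPred_eq, mem_Ico, ← Subtype.coe_le_coe, ← Subtype.coe_lt_coe]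
      constructor
      · exact not_lt.1 (Nat.find_min hex (by omega))
      · rw [Nat.sub_add_cancel h0]; exact hk
  · set bad : ℕ → Set (Om I) := fun n => ⋃ m ∈ Finset.range (K n), J n m ∩ (q \ hit (B n m) A.A)
      with hbad
    have hb : ∀ n, mu I (bad n) ≤ ENNReal.ofReal ((1 / 2 : ℝ) ^ n) := by
      intro n
      have hA := hν n A
      refine (measure_biUnion_finset_le _ _).trans ?_
      have h2 : ∀ m ∈ Finset.range (K n), mu I (J n m ∩ (q \ hit (B n m) A.A)) =
          ENNReal.ofReal (w n m * (mu I).real (q \ hit (B n m) A.A)) := by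
        intro m _
        rw [indep (A := {v}) (B := C ∪ T) (disjoint_singleton_left.2 (by simp [hvC, hvT])) (hJm n m)
          (hq.diff (hit_meas (hB n m) A.meas)) (hJd n m)
          ((hqC.mono subset_union_left).diff (hit_dep (hBC n m) A)), hJmu,
          ENNReal.ofReal_mul (hw0 n m)]
        congr 1
        exact (ENNReal.ofReal_toReal (measure_ne_top _ _)).symm
      rw [Finset.sum_congr rfl h2, ← ENNReal.ofReal_sum_of_nonneg
        (fun m _ => mul_nonneg (hw0 n m) measureReal_nonneg)]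
      apply ENNReal.ofReal_le_ofReal
      rw [Finset.sum_range]
      refine le_trans (le_of_eq (Finset.sum_congr rfl fun m _ => ?_)) hA
      simp [hw, m.2]
    have hsum : ∑' n, mu I (bad n) ≠ ∞ := by
      refine ne_top_of_le_ne_top ?_ (ENNReal.tsum_le_tsum hb)
      rw [← ENNReal.ofReal_tsum_of_nonneg (fun n => by positivity) summable_geometric_two]
      exact ENNReal.ofReal_ne_top
    filter_upwards [ae_eventually_notMem hsum] with x hx hxq
    filter_upwards [hx] with n hn m hm
    by_contra hcon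
    apply hn
    simp only [hbad, mem_iUnion, exists_prop, Finset.mem_range]
    refine ⟨m, ?_, hm, hxq, hcon⟩
    by_contra hmK
    have e1 := hcge n m (not_lt.1 hmK)
    have e2 := hcge n (m + 1) (by omega)
    simp only [hJ, mem_ofPred_eq, mem_Ico, e1, e2] at hm
    exact absurd hm.2 (not_lt.2 hm.1)

end Pool.Agent.R582.GG
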