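import Mathlib
import Pool.Agent.R582.GG.Rep
import Pool.Agent.R582.GG.Select

set_option autoImplicit false

/-!
# The forcing argument
-/

namespace Pool.Agent.R582.GG

open Set MeasureTheory Filter Topology
open scoped ENNReal
open Pool.Agent.Helper292.SP (fnot fand fall fimp fiff fex fground meets mem_fex mem_fimp)
open Pool.Agent.R582.Rand

/-- The hypothesis: there are points `ev e` of Cantor space, `e` in `E`, such that
* every family of infinitely many bounds indexed by `W` can be bounded: for every family of total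
  relations `F w` on the natural numbers there is a relation `g` with finite sections such that for
  each `w`, for all but finitely many `n` some `k` satisfies both `g n k` and `F w n k`;
* every subset of the natural numbers is some `ev e`;
* selection: if `w` is in `W` and the open sets coded by `U n m` form a sequence (in `m`)
  such that each point `ev e` with `R w e` is in all but finitely many of them, for every `n`, then
  for each `n` one can select `m` with this property for the selected sequence. -/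
def Hyp (W E : Type) (R : W → E → Prop) : Prop :=
  (∀ e, ∃ w, R w e) ∧
  (∀ F : W → ℕ → ℕ → Prop, (∀ w n, ∃ k, F w n k) →
    ∃ g : ℕ → ℕ → Prop, (∀ n, ∃ N, ∀ k, g n k → k ≤ N) ∧
      ∀ w, ∃ N, ∀ n, N ≤ n → ∃ k, g n k ∧ F w n k) ∧
  ∃ ev : E → ℕ → Prop,
    (∀ x : ℕ → Prop, ∃ e, ∀ n, x n ↔ ev e n) ∧
    ∀ (w : W) (U : ℕ → ℕ → List Bool → Prop),
      (∀ e, R w e → ∀ n, ∃ k, ∀ m, k ≤ m →
        ∃ s, U n m s ∧ ∀ i : Fin s.length, (ev e i ↔ s.get i = true)) →
      ∃ M : ℕ → ℕ → Prop, (∀ n, ∃ m, M n m) ∧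
        ∀ e, R w e → ∃ k, ∀ n, k ≤ n → ∀ m, M n m →
          ∃ s, U n m s ∧ ∀ i : Fin s.length, (ev e i ↔ s.get i = true)

/-- the formula: the point named by `ev e` starts with `s` -/
def iniN {P : Type} [Preorder P] (x : ℕ → Set P) (s : List Bool) : Set P :=
  fall fun i : Fin s.length => fiff (meets (x i)) (fground (s.get i = true))

/-- `Hyp` in the forcing language -/
def HypN (P : Type) [Preorder P] (W E : Type) (R : W → E → Prop) : Set P :=
  fand (fground (∀ e, ∃ w, R w e)) (fand
    (fall fun F : W → ℕ → ℕ → Set P =>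
      fimp (fall fun w : W => fall fun n : ℕ => fex fun k : ℕ => meets (F w n k))
      (fex fun g : ℕ → ℕ → Set P => fand
        (fall fun n : ℕ => fex fun N : ℕ => fall fun k : ℕ => fimp (meets (g n k)) (fground (k ≤ N)))
        (fall fun w : W => fex fun N : ℕ => fall fun n : ℕ => fimp (fground (N ≤ n))
          (fex fun k : ℕ => fand (meets (g n k)) (meets (F w n k))))))
    (fex fun ev : E → ℕ → Set P => fand
      (fall fun x : ℕ → Set P => fex fun e : E => fall fun n : ℕ => fiff (meets (x n)) (meets (ev e n)))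
      (fall fun w : W => fall fun U : ℕ → ℕ → List Bool → Set P => fimp
        (fall fun e : E => fimp (fground (R w e)) (fall fun n : ℕ => fex fun k : ℕ =>
          fall fun m : ℕ => fimp (fground (k ≤ m))
            (fex fun s : List Bool => fand (meets (U n m s)) (iniN (ev e) s))))
        (fex fun M : ℕ → ℕ → Set P => fand (fall fun n : ℕ => fex fun m : ℕ => meets (M n m))
          (fall fun e : E => fimp (fground (R w e)) (fex fun k : ℕ => fall fun n : ℕ =>
            fimp (fground (k ≤ n)) (fall fun m : ℕ => fimp (meets (M n m))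
              (fex fun s : List Bool => fand (meets (U n m s)) (iniN (ev e) s)))))))))

variable {W : Type}

/-- names of points -/
def EE (I : Type) : Type := {A : ℕ → Set (Om I) // ∀ n, MeasurableSet (A n)}

/-- the names depending on the coordinates with first component at most `w` -/
def RR (W : Type) [LE W] (w : W) (e : EE (W × W)) : Prop := ∀ n, Dep {i : W × W | i.1 ≤ w} (e.1 n)

theorem mem_iniS {I : Type} {A : ℕ → Set (Om I)} {s : List Bool} {x : Om I} :
    x ∈ IniS A s ↔ ∀ i : Fin s.length, (x ∈ A i ↔ s.get i = true) := by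
  induction s using List.reverseRecOn with
  | nil => rw [iniS_nil]; simp
  | append_singleton s b ih =>
    rw [iniS_snoc, mem_inter_iff, ih]
    constructor
    · rintro ⟨h1, h2⟩ ⟨i, hi⟩
      rw [List.length_append, List.length_singleton] at hi
      rcases Nat.lt_or_ge i s.length with h | h
      · have := h1 ⟨i, h⟩
        simpa [List.getElem_append_left h] using this
      · obtain rfl : i = s.length := by omega
        simpa using h2
    · intro h
      refine ⟨fun i => ?_, ?_⟩
      · have := h ⟨i, by simp⟩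
        simpa [List.getElem_append_left i.2] using this
      · have := h ⟨s.length, by simp⟩
        simpa using this

theorem rep_ini {I : Type} {A : ℕ → Set (Om I)} (hA : ∀ n, MeasurableSet (A n)) (s : List Bool) :
    Rep (iniN (fun n => (cst (A n) : Set (MAlg (mu I)))) s) (fun x => x ∈ IniS A s) :=
  (rep_all fun i : Fin s.length => rep_iff (rep_cst (hA i)) (rep_ground _)).congr fun _ =>
    mem_iniS.symm

theorem exists_above [LinearOrder W] (hb : ∀ f : ℕ → W, ∃ w, ∀ n, f n < w) [Nonempty W] {C : Set W}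
    (hC : C.Countable) : ∃ w, ∀ c ∈ C, c < w := by
  rcases C.eq_empty_or_nonempty with rfl | hne
  · exact ⟨Classical.arbitrary W, by simp⟩
  · obtain ⟨f, hf⟩ := hC.exists_eq_range hne
    obtain ⟨w, hw⟩ := hb f
    refine ⟨w, fun c hc => ?_⟩
    rw [hf] at hc
    obtain ⟨n, rfl⟩ := hc
    exact hw n

/-- the first part: boundedness -/
theorem forces_bdd {I : Type} (hW : ∀ F : W → ℕ → ℕ, ∃ g : ℕ → ℕ, ∀ w, ∀ᶠ n in atTop, F w n ≤ g n)
    (p : MAlg (mu I)) : p ∈
    (fall fun F : W → ℕ → ℕ → Set (MAlg (mu I)) =>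
      fimp (fall fun w : W => fall fun n : ℕ => fex fun k : ℕ => meets (F w n k))
      (fex fun g : ℕ → ℕ → Set (MAlg (mu I)) => fand
        (fall fun n : ℕ => fex fun N : ℕ => fall fun k : ℕ => fimp (meets (g n k)) (fground (k ≤ N)))
        (fall fun w : W => fex fun N : ℕ => fall fun n : ℕ => fimp (fground (N ≤ n))
          (fex fun k : ℕ => fand (meets (g n k)) (meets (F w n k)))))) := by
  intro F
  rw [mem_fimp]
  intro q _ hq
  have h1 : ∀ w n, ∀ᵐ x ∂(mu I), x ∈ q.s → ∃ k, x ∈ val (F w n k) := fun w n =>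
    ((rep_ex fun k => rep_meets (F w n k)).2 q).1 (hq w n)
  have h2 : ∀ w (n : ℕ), ∃ N, mu I (q.s \ ⋃ k ∈ Finset.range (N + 1), val (F w n k)) ≤
      ENNReal.ofReal ((1 / 2 : ℝ) ^ n) := by
    intro w n
    set H : ℕ → Set (Om I) := fun N => q.s \ ⋃ k ∈ Finset.range (N + 1), val (F w n k) with hH
    have hanti : Antitone H := by
      intro N N' hN x hx
      refine ⟨hx.1, fun h => hx.2 ?_⟩
      simp only [mem_iUnion, exists_prop, Finset.mem_range] at h ⊢
      obtain ⟨k, hk, hk'⟩ := h
      exact ⟨k, by omega, hk'⟩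
    have h3 := tendsto_measure_iInter_atTop (μ := mu I) (s := H)
      (fun N => (q.meas.diff (Finset.measurableSet_biUnion _ fun k _ => val_meas _)).nullMeasurableSet)
      hanti ⟨0, measure_ne_top _ _⟩
    have h4 : mu I (⋂ N, H N) = 0 := by
      refine measure_mono_null (fun x hx => ?_) (ae_iff.1 (h1 w n))
      simp only [mem_ofPred_eq, Classical.not_imp, not_exists]
      rw [mem_iInter] at hx
      refine ⟨(hx 0).1, fun k hk => (hx k).2 ?_⟩
      simp only [mem_iUnion, exists_prop, Finset.mem_range]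
      exact ⟨k, by omega, hk⟩
    rw [h4] at h3
    have h5 : ∀ᶠ N in atTop, (mu I ∘ H) N < ENNReal.ofReal ((1 / 2 : ℝ) ^ n) :=
      h3.eventually_lt_const (by
        rw [ENNReal.ofReal_pos]; positivity)
    obtain ⟨N, hN⟩ := h5.exists
    exact ⟨N, hN.le⟩
  choose f hf using h2
  obtain ⟨g, hg⟩ := hW f
  refine ⟨q, le_rfl, ?_⟩
  rw [mem_fex]
  intro r hr
  refine ⟨r, le_rfl, fun n k => cst {_x | k ≤ g n}, ?_, ?_⟩
  · intro n
    rw [(rep_ex fun N : ℕ => rep_all fun k : ℕ => rep_imp
      (rep_cst (μ := mu I) (E := {_x : Om I | k ≤ g n}) (MeasurableSet.const _))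
      (rep_ground (k ≤ N))).2]
    exact ae_of_all _ fun x _ => ⟨g n, fun k hk => hk⟩
  · intro w
    rw [(rep_ex fun N : ℕ => rep_all fun n : ℕ => rep_imp (rep_ground (N ≤ n)) (rep_ex fun k : ℕ =>
      rep_and (rep_cst (μ := mu I) (E := {_x : Om I | k ≤ g n}) (MeasurableSet.const _))
        (rep_meets (F w n k)))).2]
    have hsum : ∑' n, mu I (q.s \ ⋃ k ∈ Finset.range (f w n + 1), val (F w n k)) ≠ ∞ := by
      refine ne_top_of_le_ne_top ?_ (ENNReal.tsum_le_tsum (hf w))
      rw [← ENNReal.ofReal_tsum_of_nonneg (fun n => by positivity) summable_geometric_two]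
      exact ENNReal.ofReal_ne_top
    filter_upwards [ae_eventually_notMem hsum, le_iff_ae.1 hr] with x hx hxr hxq
    obtain ⟨N, hN⟩ := eventually_atTop.1 (hx.and (hg w))
    refine ⟨N, fun n hn => ?_⟩
    obtain ⟨h3, h4⟩ := hN n hn
    have h5 : x ∈ ⋃ k ∈ Finset.range (f w n + 1), val (F w n k) := by
      by_contra hcon
      exact h3 ⟨hxr hxq, hcon⟩
    simp only [mem_iUnion, exists_prop, Finset.mem_range] at h5
    obtain ⟨k, hk, hk'⟩ := h5
    exact ⟨k, (Nat.lt_succ_iff.1 hk).trans h4, hk'⟩

theorem forces [LinearOrder W] [Nonempty W] (hb : ∀ f : ℕ → W, ∃ w, ∀ n, f n < w)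
    (hW : ∀ F : W → ℕ → ℕ, ∃ g : ℕ → ℕ, ∀ w, ∀ᶠ n in atTop, F w n ≤ g n)
    (p : MAlg (mu (W × W))) : p ∈ HypN (MAlg (mu (W × W))) W (EE (W × W)) (RR W) := by
  have hcov : ∀ e : EE (W × W), ∃ w, RR W w e := by
    intro e
    choose C hC hd using fun n => exists_countable (e.2 n)
    obtain ⟨w, hw⟩ := exists_above hb ((countable_iUnion hC).image Prod.fst)
    refine ⟨w, fun n => (hd n).mono fun i hi => ?_⟩
    exact (hw i.1 ⟨i, mem_iUnion.2 ⟨n, hi⟩, rfl⟩).le
  refine ⟨hcov, forces_bdd hW p, ?_⟩
  rw [mem_fex]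
  intro p' _
  refine ⟨p', le_rfl, fun e n => cst (e.1 n), ?_, ?_⟩
  · -- every real has a name
    intro x
    rw [mem_fex]
    intro r _
    refine ⟨r, le_rfl, ⟨fun n => val (x n), fun n => val_meas _⟩, ?_⟩
    rw [(rep_all fun n : ℕ => rep_iff (rep_meets (x n)) (rep_cst (val_meas (x n)))).2]
    exact ae_of_all _ fun y _ n => Iff.rfl
  · intro w U
    rw [mem_fimp]
    intro q _ hq
    refine ⟨q, le_rfl, ?_⟩
    rw [mem_fex]
    intro r hr
    -- the countable support
    obtain ⟨C₀, hC₀, hd₀⟩ := exists_countable q.meas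
    choose C₁ hC₁ hd₁ using fun n m s => exists_countable (val_meas (μ := mu (W × W)) (U n m s))
    set C : Set (W × W) := C₀ ∪ ⋃ n, ⋃ m, ⋃ s, C₁ n m s with hC
    have hCc : C.Countable := hC₀.union (countable_iUnion fun n => countable_iUnion fun m =>
      countable_iUnion fun s => hC₁ n m s)
    have hsub : ∀ n m s, C₁ n m s ⊆ C := fun n m s i hi => Or.inr (by
      simp only [mem_iUnion]; exact ⟨n, m, s, hi⟩)
    set T : Set (W × W) := {i | i.1 ≤ w} with hT
    have hTfr : ∀ D : Set (W × W), D.Countable → ∃ u ∈ T, u ∉ D := by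
      intro D hD
      obtain ⟨b, hb'⟩ := exists_above hb (hD.image Prod.snd)
      refine ⟨(w, b), le_refl w, fun h => ?_⟩
      exact lt_irrefl b (hb' b ⟨(w, b), h, rfl⟩)
    obtain ⟨a, ha⟩ := hb fun _ => w
    obtain ⟨b, hb'⟩ := exists_above hb (hCc.image Prod.snd)
    have hvC : (a, b) ∉ C := fun h => lt_irrefl b (hb' b ⟨(a, b), h, rfl⟩)
    have hvT : (a, b) ∉ T := fun h => absurd (ha 0) (not_lt.2 h)
    have hant : ∀ A : Strat T, ∀ n, ∀ᵐ x ∂(mu (W × W)), x ∈ q.s →
        ∀ᶠ m in atTop, x ∈ hit (fun s => val (U n m s)) A.A := by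
      intro A
      have h1 := hq ⟨A.A, A.meas⟩
      rw [(rep_imp (rep_ground (RR W w ⟨A.A, A.meas⟩)) (rep_all fun n : ℕ => rep_ex fun k : ℕ =>
        rep_all fun m : ℕ => rep_imp (rep_ground (k ≤ m)) (rep_ex fun s : List Bool =>
          rep_and (rep_meets (U n m s)) (rep_ini A.meas s)))).2] at h1
      intro n
      filter_upwards [h1] with x hx hxq
      obtain ⟨k, hk⟩ := hx hxq A.dep n
      refine eventually_atTop.2 ⟨k, fun m hm => ?_⟩
      rw [hit_eq]
      obtain ⟨s, hs⟩ := hk m hm
      exact mem_iUnion.2 ⟨s, hs⟩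
    obtain ⟨J, hJm, hJ1, hJ2⟩ := select hCc hTfr hvC hvT q.meas (hd₀.mono subset_union_left)
      (B := fun n m s => val (U n m s)) (fun n m s => val_meas _)
      (fun n m s => (hd₁ n m s).mono (hsub n m s)) hant
    refine ⟨r, le_rfl, fun n m => cst (J n m), ?_, ?_⟩
    · change r ∈ fall fun n : ℕ => fex fun m : ℕ => meets (cst (J n m))
      rw [(rep_all fun n : ℕ => rep_ex fun m : ℕ => rep_cst (hJm n m)).2]
      filter_upwards [hJ1] with x hx _
      exact hx
    · intro e
      rw [(rep_imp (rep_ground (RR W w e)) (rep_ex fun k : ℕ => rep_all fun n : ℕ =>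
        rep_imp (rep_ground (k ≤ n)) (rep_all fun m : ℕ => rep_imp (rep_cst (hJm n m))
          (rep_ex fun s : List Bool => rep_and (rep_meets (U n m s)) (rep_ini e.2 s))))).2]
      by_cases he : RR W w e
      · filter_upwards [hJ2 ⟨e.1, e.2, he⟩, le_iff_ae.1 hr] with x hx hxr hxq _
        obtain ⟨k, hk⟩ := eventually_atTop.1 (hx (hxr hxq))
        refine ⟨k, fun n hn m hm => ?_⟩
        have := hk n hn m hm
        rw [hit_eq] at this
        exact mem_iUnion.1 this
      · exact ae_of_all _ fun x _ h => absurd h he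

end Pool.Agent.R582.GG
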