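import Mathlib
import Pool.Agent.R582.GG.Force
import Pool.Agent.R582.Coh.Real

set_option autoImplicit false

/-!
# `add(S₁(Γ,Γ)) < 𝔟` from the hypothesis `Hyp`
-/

namespace Pool.Agent.R582.GG

open Cardinal Set Filter Topology
open Pool.Agent.R582.Coh (B B_inj continuous_B)

/-- `𝒞` is an open `γ`-cover of `X`: the members of `𝒞` are open, do not contain `X`, there are
infinitely many of them and each point of `X` is in all but finitely many of them. -/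
def GCover (X : Set ℝ) (𝒞 : Set (Set ℝ)) : Prop :=
  (∀ V ∈ 𝒞, IsOpen V) ∧ 𝒞.Infinite ∧ (∀ V ∈ 𝒞, ¬ X ⊆ V) ∧
    ∀ x ∈ X, {V : Set ℝ | V ∈ 𝒞 ∧ x ∉ V}.Finite

/-- `X` has the property `S₁(Γ,Γ)` -/
def SGG (X : Set ℝ) : Prop :=
  ∀ 𝒰 : ℕ → Set (Set ℝ), (∀ n, GCover X (𝒰 n)) →
    ∃ U : ℕ → Set ℝ, (∀ n, U n ∈ 𝒰 n) ∧ GCover X (range U)

/-- the additivity number of the class of the sets of reals with the property `S₁(Γ,Γ)` -/
noncomputable def addGG : Cardinal.{0} :=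
  sInf {κ : Cardinal.{0} | ∃ 𝓕 : Set (Set ℝ), #𝓕 = κ ∧ (∀ X ∈ 𝓕, SGG X) ∧ ¬ SGG (⋃₀ 𝓕)}

/-- the bounding number -/
noncomputable def bb : Cardinal.{0} :=
  sInf {κ : Cardinal.{0} | ∃ F : Set (ℕ → ℕ), #F = κ ∧
    ∀ g : ℕ → ℕ, ∃ f ∈ F, ¬ ∀ᶠ n in atTop, f n ≤ g n}

/-- an open set around a point of Cantor space contains a cylinder -/
theorem exists_cyl {V : Set ℝ} (hV : IsOpen V) {x : ℕ → Bool} (hx : B x ∈ V) :
    ∃ N : ℕ, ∀ y : ℕ → Bool, (∀ i < N, y i = x i) → B y ∈ V := by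
  have ho : IsOpen (B ⁻¹' V) := hV.preimage continuous_B
  obtain ⟨s, ⟨y, m, rfl⟩, hxs, hsO⟩ :=
    (PiNat.isTopologicalBasis_cylinders (fun _ : ℕ => Bool)).mem_nhds_iff.1 (ho.mem_nhds hx)
  refine ⟨m, fun z hz => hsO ?_⟩
  rw [PiNat.mem_cylinder_iff] at hxs ⊢
  intro i hi
  rw [hz i hi, hxs i hi]

/-- a sufficient criterion -/
theorem sgg_of {X : Set ℝ} (h : ∀ V : ℕ → ℕ → Set ℝ, (∀ n m, IsOpen (V n m)) →
    (∀ x ∈ X, ∀ n, ∃ k, ∀ m, k ≤ m → x ∈ V n m) →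
    ∃ f : ℕ → ℕ, ∀ x ∈ X, ∃ k, ∀ n, k ≤ n → x ∈ V n (f n)) : SGG X := by
  classical
  intro 𝒰 h𝒰
  let V : ℕ → ℕ → Set ℝ := fun n m => ((h𝒰 n).2.1.natEmbedding (𝒰 n) m).1
  have hV : ∀ n m, V n m ∈ 𝒰 n := fun n m => ((h𝒰 n).2.1.natEmbedding (𝒰 n) m).2
  have hinj : ∀ n, Function.Injective (V n) := fun n =>
    Subtype.val_injective.comp ((h𝒰 n).2.1.natEmbedding (𝒰 n)).injective
  obtain ⟨f, hf⟩ := h V (fun n m => (h𝒰 n).1 _ (hV n m)) (by
    intro x hx n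
    have h1 := ((h𝒰 n).2.2.2 x hx).preimage ((hinj n).injOn (s := V n ⁻¹' {W | W ∈ 𝒰 n ∧ x ∉ W}))
    obtain ⟨k, hk⟩ := h1.bddAbove
    refine ⟨k + 1, fun m hm => ?_⟩
    by_contra hcon
    have h2 : m ≤ k := hk ⟨hV n m, hcon⟩
    omega)
  refine ⟨fun n => V n (f n), fun n => hV n _, ?_, ?_, ?_, ?_⟩
  · rintro _ ⟨n, rfl⟩
    exact (h𝒰 n).1 _ (hV n _)
  · intro hfin
    have : Finite (range fun n => V n (f n)) := hfin
    obtain ⟨⟨W, hW⟩, hW2⟩ := Finite.exists_infinite_fiber (rangeFactorization fun n => V n (f n))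
    have h1 : {n | V n (f n) = W}.Infinite := by
      have h2 := Set.infinite_coe_iff.1 hW2
      refine h2.mono fun n hn => ?_
      exact congrArg Subtype.val hn
    obtain ⟨n₀, hn₀⟩ := h1.nonempty
    refine (h𝒰 n₀).2.2.1 _ (hV n₀ (f n₀)) fun x hx => ?_
    obtain ⟨k, hk⟩ := hf x hx
    obtain ⟨n, hn, hkn⟩ := h1.exists_gt k
    have h3 := hk n hkn.le
    rw [show V n (f n) = W from hn] at h3
    rw [show V n₀ (f n₀) = W from hn₀]
    exact h3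
  · rintro _ ⟨n, rfl⟩
    exact (h𝒰 n).2.2.1 _ (hV n _)
  · intro x hx
    obtain ⟨k, hk⟩ := hf x hx
    refine ((Finset.range k).finite_toSet.image fun n => V n (f n)).subset ?_
    rintro _ ⟨⟨n, rfl⟩, hn⟩
    refine ⟨n, ?_, rfl⟩
    rw [Finset.mem_coe, Finset.mem_range]
    by_contra hcon
    exact hn (hk n (not_lt.1 hcon))

/-- the clopen sets -/
def CC (n m : ℕ) : Set (ℕ → Bool) :=
  {x | x (Nat.pair n m) = true ∧ ∀ j < m, x (Nat.pair n j) = false}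

theorem isClosed_CC (n m : ℕ) : IsClosed (CC n m) := by
  have h : CC n m = {x | x (Nat.pair n m) = true} ∩ ⋂ j, ⋂ _ : j < m, {x | x (Nat.pair n j) = false} := by
    ext x
    simp [CC]
  rw [h]
  refine (isClosed_eq (continuous_apply _) continuous_const).inter ?_
  exact isClosed_iInter fun j => isClosed_iInter fun _ =>
    isClosed_eq (continuous_apply _) continuous_const

theorem not_sgg_range : ¬ SGG (range B) := by
  classical
  intro h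
  let V : ℕ → ℕ → Set ℝ := fun n m => (B '' CC n m)ᶜ
  have hopen : ∀ n m, IsOpen (V n m) := fun n m =>
    ((isClosed_CC n m).isCompact.image continuous_B).isClosed.isOpen_compl
  have hmem : ∀ n m x, B x ∈ V n m ↔ x ∉ CC n m := by
    intro n m x
    change ¬ (B x ∈ B '' CC n m) ↔ _
    rw [B_inj.mem_set_image]
  have hdisj : ∀ n m m' x, x ∈ CC n m → x ∈ CC n m' → m = m' := by
    intro n m m' x h1 h2
    rcases lt_trichotomy m m' with h3 | h3 | h3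
    · have := h2.2 m h3
      rw [h1.1] at this
      exact absurd this (by simp)
    · exact h3
    · have := h1.2 m' h3
      rw [h2.1] at this
      exact absurd this (by simp)
  have hne : ∀ f : ℕ → ℕ, ∃ x, ∀ n, x ∈ CC n (f n) := by
    intro f
    refine ⟨fun i => decide ((Nat.unpair i).2 = f (Nat.unpair i).1), fun n => ⟨?_, fun j hj => ?_⟩⟩
    · simp
    · simp [hj.ne]
  have hinj : ∀ n, Function.Injective (V n) := by
    intro n m m' hmm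
    obtain ⟨x, hx⟩ := hne fun _ => m
    have h1 : B x ∉ V n m := fun h2 => (hmem n m x).1 h2 (hx n)
    rw [hmm] at h1
    have h2 : x ∈ CC n m' := by
      by_contra hcon
      exact h1 ((hmem n m' x).2 hcon)
    exact hdisj n m m' x (hx n) h2
  obtain ⟨U, hU1, hU2⟩ := h (fun n => range (V n)) (by
    intro n
    refine ⟨?_, infinite_range_of_injective (hinj n), ?_, ?_⟩
    · rintro _ ⟨m, rfl⟩
      exact hopen n m
    · rintro _ ⟨m, rfl⟩ hcon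
      obtain ⟨x, hx⟩ := hne fun _ => m
      exact (hmem n m x).1 (hcon ⟨x, rfl⟩) (hx n)
    · rintro _ ⟨x, rfl⟩
      refine Set.Subsingleton.finite ?_
      rintro _ ⟨⟨m, rfl⟩, hm⟩ _ ⟨⟨m', rfl⟩, hm'⟩
      rw [hmem, not_not] at hm hm'
      rw [hdisj n m m' x hm hm'])
  choose f hf using hU1
  obtain ⟨x, hx⟩ := hne f
  refine hU2.2.1 ((hU2.2.2.2 (B x) ⟨x, rfl⟩).subset ?_)
  rintro _ ⟨n, rfl⟩
  refine ⟨⟨n, rfl⟩, ?_⟩
  rw [← hf n, hmem, not_not]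
  exact hx n

variable {W E : Type} {R : W → E → Prop}

theorem Hyp.add_le (h : Hyp W E R) : addGG ≤ #W := by
  classical
  obtain ⟨h1, -, ev, h2, h3⟩ := h
  let Y : W → Set ℝ := fun w => {t | ∃ e, R w e ∧ ∃ x : ℕ → Bool, (∀ n, x n = true ↔ ev e n) ∧ B x = t}
  have hY : ∀ w, SGG (Y w) := by
    intro w
    refine sgg_of fun V hV hx => ?_
    obtain ⟨M, hM1, hM2⟩ := h3 w (fun n m s => ∀ x : ℕ → Bool, (∀ i : Fin s.length, x i = s.get i) →
      B x ∈ V n m) (by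
      intro e he n
      obtain ⟨k, hk⟩ := hx (B fun n => decide (ev e n)) ⟨e, he, _, fun n => by simp, rfl⟩ n
      refine ⟨k, fun m hm => ?_⟩
      obtain ⟨N, hN⟩ := exists_cyl (hV n m) (hk m hm)
      refine ⟨List.ofFn fun i : Fin N => decide (ev e i), fun x hx => hN x fun i hi => ?_, ?_⟩
      · have := hx ⟨i, by simpa using hi⟩
        simpa using this
      · rintro ⟨i, hi⟩
        simp)
    choose f hf using hM1
    refine ⟨f, ?_⟩
    rintro t ⟨e, he, x, hx, rfl⟩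
    obtain ⟨k, hk⟩ := hM2 e he
    refine ⟨k, fun n hn => ?_⟩
    obtain ⟨s, hs1, hs2⟩ := hk n hn (f n) (hf n)
    refine hs1 x fun i => ?_
    rw [Bool.eq_iff_iff, hx, hs2 i]
  have hun : ⋃₀ range Y = range B := by
    ext t
    constructor
    · rintro ⟨_, ⟨w, rfl⟩, e, -, x, -, rfl⟩
      exact ⟨x, rfl⟩
    · rintro ⟨x, rfl⟩
      obtain ⟨e, he⟩ := h2 fun n => x n = true
      obtain ⟨w, hw⟩ := h1 e
      exact ⟨Y w, ⟨w, rfl⟩, e, hw, x, he, rfl⟩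
  have hm : #(range Y) ∈ {κ : Cardinal.{0} |
      ∃ 𝓕 : Set (Set ℝ), #𝓕 = κ ∧ (∀ X ∈ 𝓕, SGG X) ∧ ¬ SGG (⋃₀ 𝓕)} := by
    refine ⟨range Y, rfl, ?_, ?_⟩
    · rintro _ ⟨w, rfl⟩
      exact hY w
    · rw [hun]
      exact not_sgg_range
  exact (csInf_le' hm).trans Cardinal.mk_range_le

theorem bb_mem : ∃ F : Set (ℕ → ℕ), #F = bb ∧ ∀ g : ℕ → ℕ, ∃ f ∈ F, ¬ ∀ᶠ n in atTop, f n ≤ g n := by
  have h : {κ : Cardinal.{0} | ∃ F : Set (ℕ → ℕ), #F = κ ∧
      ∀ g : ℕ → ℕ, ∃ f ∈ F, ¬ ∀ᶠ n in atTop, f n ≤ g n}.Nonempty := by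
    refine ⟨_, univ, rfl, fun g => ⟨fun n => g n + 1, mem_univ _, fun hcon => ?_⟩⟩
    obtain ⟨n, hn⟩ := hcon.exists
    exact absurd hn (Nat.not_succ_le_self _)
  exact csInf_mem h

theorem Hyp.lt_bb (h : Hyp W E R) : #W < bb := by
  by_contra hcon
  rw [not_lt] at hcon
  obtain ⟨F, hF, hF2⟩ := bb_mem
  rw [← hF] at hcon
  obtain ⟨i⟩ := (Cardinal.le_def _ _).1 hcon
  obtain ⟨f₀, hf₀, -⟩ := hF2 0
  have : Nonempty F := ⟨⟨f₀, hf₀⟩⟩
  let φ : W → F := Function.invFun i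
  have hφ : Function.Surjective φ := Function.invFun_surjective i.injective
  obtain ⟨g, hg1, hg2⟩ := h.2.1 (fun w n k => (φ w).1 n = k) fun w n => ⟨_, rfl⟩
  choose G hG using hg1
  obtain ⟨f, hf, hf2⟩ := hF2 G
  obtain ⟨w, hw⟩ := hφ ⟨f, hf⟩
  obtain ⟨N, hN⟩ := hg2 w
  refine hf2 (eventually_atTop.2 ⟨N, fun n hn => ?_⟩)
  obtain ⟨k, hk1, hk2⟩ := hN n hn
  rw [hw] at hk2
  rw [show f n = k from hk2]
  exact hG n k hk1

theorem Hyp.add_lt_bb (h : Hyp W E R) : addGG < bb := h.add_le.trans_lt h.lt_bb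

end Pool.Agent.R582.GG
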